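import Pool.Agent.helper15.Hexagon.Defs

/-!
Regions bounded by lines in the six directions of the sides of a regular dodecagon, with
offsets in `ℤ[√3]`.
-/

set_option autoImplicit false

namespace Pool.Agent.helper56.Dod

open Set

/-! ### numbers of the form `a + b √3` -/

/-- `⟨a, b⟩` stands for `a + b √3` -/
structure Q where
  a : ℤ
  b : ℤ
deriving DecidableEq

namespace Q

noncomputable def val (q : Q) : ℝ := q.a + q.b * √3

instance : Neg Q := ⟨fun q => ⟨-q.a, -q.b⟩⟩
instance : Add Q := ⟨fun p q => ⟨p.a + q.a, p.b + q.b⟩⟩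
instance : Mul Q := ⟨fun p q => ⟨p.a * q.a + 3 * (p.b * q.b), p.a * q.b + p.b * q.a⟩⟩

theorem s3_pos : (0 : ℝ) < √3 := Real.sqrt_pos.2 (by norm_num)
theorem s3_sq : √3 * √3 = (3 : ℝ) := Real.mul_self_sqrt (by norm_num)

theorem val_neg (q : Q) : (-q).val = -q.val := by
  show ((-q.a : ℤ) : ℝ) + ((-q.b : ℤ) : ℝ) * √3 = -((q.a : ℝ) + q.b * √3)
  push_cast; ring

theorem val_add (p q : Q) : (p + q).val = p.val + q.val := by
  show ((p.a + q.a : ℤ) : ℝ) + ((p.b + q.b : ℤ) : ℝ) * √3 =
    ((p.a : ℝ) + p.b * √3) + ((q.a : ℝ) + q.b * √3)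
  push_cast; ring

theorem val_mul (p q : Q) : (p * q).val = p.val * q.val := by
  have h := s3_sq
  show ((p.a * q.a + 3 * (p.b * q.b) : ℤ) : ℝ) + ((p.a * q.b + p.b * q.a : ℤ) : ℝ) * √3 =
    ((p.a : ℝ) + p.b * √3) * ((q.a : ℝ) + q.b * √3)
  push_cast
  linear_combination (-(p.b : ℝ) * q.b) * h

/-- a test for `0 ≤ a + b √3` -/
def nonneg (q : Q) : Bool :=
  (decide (0 ≤ q.a) && decide (0 ≤ q.b)) ||
    ((decide (0 ≤ q.a) && decide (3 * (q.b * q.b) ≤ q.a * q.a)) ||
      (decide (0 ≤ q.b) && decide (q.a * q.a ≤ 3 * (q.b * q.b))))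

theorem val_nonneg {q : Q} (h : q.nonneg = true) : 0 ≤ q.val := by
  have hs := s3_pos
  have hq := s3_sq
  simp only [nonneg, Bool.or_eq_true, Bool.and_eq_true, decide_eq_true_eq] at h
  unfold val
  rcases h with ⟨h1, h2⟩ | ⟨h1, h2⟩ | ⟨h1, h2⟩
  · have h1' : (0 : ℝ) ≤ q.a := by exact_mod_cast h1
    have h2' : (0 : ℝ) ≤ q.b := by exact_mod_cast h2
    positivity
  · have h1' : (0 : ℝ) ≤ q.a := by exact_mod_cast h1
    have h2' : 3 * ((q.b : ℝ) * q.b) ≤ (q.a : ℝ) * q.a := by exact_mod_cast h2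
    have h3 : |(q.b : ℝ) * √3| ≤ |(q.a : ℝ)| := by
      apply sq_le_sq.1
      calc ((q.b : ℝ) * √3) ^ 2 = (q.b : ℝ) * q.b * (√3 * √3) := by ring
        _ = 3 * ((q.b : ℝ) * q.b) := by rw [hq]; ring
        _ ≤ (q.a : ℝ) * q.a := h2'
        _ = _ := by ring
    rw [abs_of_nonneg h1'] at h3
    have := (abs_le.1 h3).1
    linarith
  · have h1' : (0 : ℝ) ≤ q.b := by exact_mod_cast h1
    have h2' : (q.a : ℝ) * q.a ≤ 3 * ((q.b : ℝ) * q.b) := by exact_mod_cast h2
    have h3 : |(q.a : ℝ)| ≤ |(q.b : ℝ) * √3| := by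
      apply sq_le_sq.1
      calc (q.a : ℝ) ^ 2 = (q.a : ℝ) * q.a := by ring
        _ ≤ 3 * ((q.b : ℝ) * q.b) := h2'
        _ = (q.b : ℝ) * q.b * (√3 * √3) := by rw [hq]; ring
        _ = _ := by ring
    rw [abs_of_nonneg (by positivity : 0 ≤ (q.b : ℝ) * √3)] at h3
    have := (abs_le.1 h3).1
    linarith

/-- a test for `p ≤ q` -/
def le (p q : Q) : Bool := (q + -p).nonneg

theorem val_le {p q : Q} (h : p.le q = true) : p.val ≤ q.val := by
  have := val_nonneg h
  rw [val_add, val_neg] at this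
  linarith

end Q

/-! ### the functionals -/

/-- the angle `π / 6` -/
noncomputable def al : ℝ := Real.pi / 6

theorem sin_al : Real.sin al = 1 / 2 := Real.sin_pi_div_six
theorem cos_al : Real.cos al = √3 / 2 := Real.cos_pi_div_six
theorem sin_al_pos : 0 < Real.sin al := by rw [sin_al]; norm_num

/-- `sin (k π / 6) / sin (π / 6)` -/
def sn : ℕ → Q
  | 0 => ⟨0, 0⟩
  | 1 => ⟨1, 0⟩
  | 2 => ⟨0, 1⟩
  | 3 => ⟨2, 0⟩
  | 4 => ⟨0, 1⟩
  | 5 => ⟨1, 0⟩
  | 6 => ⟨0, 0⟩
  | 7 => ⟨-1, 0⟩
  | 8 => ⟨0, -1⟩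
  | 9 => ⟨-2, 0⟩
  | 10 => ⟨0, -1⟩
  | 11 => ⟨-1, 0⟩
  | _ => ⟨0, 0⟩

theorem sin_rec (k : ℕ) : Real.sin ((k + 2 : ℕ) * al) =
    2 * Real.cos al * Real.sin ((k + 1 : ℕ) * al) - Real.sin ((k : ℕ) * al) := by
  have e1 : ((k + 2 : ℕ) : ℝ) * al = ((k + 1 : ℕ) : ℝ) * al + al := by push_cast; ring
  have e2 : ((k : ℕ) : ℝ) * al = ((k + 1 : ℕ) : ℝ) * al - al := by push_cast; ring
  rw [e1, e2, Real.sin_add, Real.sin_sub]
  ring

theorem sn_val (k : ℕ) (hk : k < 12) : (sn k).val * Real.sin al = Real.sin (k * al) := by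
  have hs := Q.s3_sq
  have h0 : Real.sin ((0 : ℕ) * al) = 0 := by simp
  have h1 : Real.sin ((1 : ℕ) * al) = 1 / 2 := by rw [Nat.cast_one, one_mul, sin_al]
  have st : ∀ (k : ℕ) (a b : ℝ), Real.sin ((k : ℕ) * al) = a → Real.sin ((k + 1 : ℕ) * al) = b →
      Real.sin ((k + 2 : ℕ) * al) = √3 * b - a := by
    intro k a b ha hb
    rw [sin_rec, ha, hb, cos_al]; ring
  have h2 := st 0 _ _ h0 h1
  have h3 := st 1 _ _ h1 h2
  have h4 := st 2 _ _ h2 h3
  have h5 := st 3 _ _ h3 h4
  have h6 := st 4 _ _ h4 h5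
  have h7 := st 5 _ _ h5 h6
  have h8 := st 6 _ _ h6 h7
  have h9 := st 7 _ _ h7 h8
  have h10 := st 8 _ _ h8 h9
  have h11 := st 9 _ _ h9 h10
  have e3 : √3 ^ 3 = 3 * √3 := by rw [pow_succ, pow_two, hs]
  have e2 : √3 ^ 2 = (3 : ℝ) := by rw [pow_two, hs]
  have e4 : √3 ^ 4 = (9 : ℝ) := by
    rw [show √3 ^ 4 = (√3 ^ 2) ^ 2 by ring, e2]; norm_num
  have e5 : √3 ^ 5 = 9 * √3 := by
    rw [show √3 ^ 5 = (√3 ^ 4) * √3 by ring, e4]
  have e6 : √3 ^ 6 = (27 : ℝ) := by
    rw [show √3 ^ 6 = (√3 ^ 2) ^ 3 by ring, e2]; norm_num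
  have e7 : √3 ^ 7 = 27 * √3 := by
    rw [show √3 ^ 7 = (√3 ^ 6) * √3 by ring, e6]
  have e8 : √3 ^ 8 = (81 : ℝ) := by
    rw [show √3 ^ 8 = (√3 ^ 2) ^ 4 by ring, e2]; norm_num
  have e9 : √3 ^ 9 = 81 * √3 := by
    rw [show √3 ^ 9 = (√3 ^ 8) * √3 by ring, e8]
  have e10 : √3 ^ 10 = (243 : ℝ) := by
    rw [show √3 ^ 10 = (√3 ^ 2) ^ 5 by ring, e2]; norm_num
  rw [sin_al]
  interval_cases k
  · rw [h0]; simp [sn, Q.val]
  · rw [h1]; simp [sn, Q.val]
  · rw [h2]; simp [sn, Q.val]
  · rw [h3]; simp only [sn, Q.val]; push_cast; ring_nf; rw [e2]; ring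
  · rw [h4]; simp only [sn, Q.val]; push_cast; ring_nf; rw [e3]; ring
  · rw [h5]; simp only [sn, Q.val]; push_cast; ring_nf; rw [e2, e4]; ring
  · rw [h6]; simp only [sn, Q.val]; push_cast; ring_nf; rw [e3, e5]; ring
  · rw [h7]; simp only [sn, Q.val]; push_cast; ring_nf; rw [e2, e4, e6]; ring
  · rw [h8]; simp only [sn, Q.val]; push_cast; ring_nf; rw [e3, e5, e7]; ring
  · rw [h9]; simp only [sn, Q.val]; push_cast; ring_nf; rw [e2, e4, e6, e8]; ring
  · rw [h10]; simp only [sn, Q.val]; push_cast; ring_nf; rw [e3, e5, e7, e9]; ring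
  · rw [h11]; simp only [sn, Q.val]; push_cast; ring_nf; rw [e2, e4, e6, e8, e10]; ring

/-- `Im (e ^ (-i t) z) / sin (π / 6)` -/
noncomputable def D (t : ℝ) (z : ℂ) : ℝ := (z.im * Real.cos t - z.re * Real.sin t) / Real.sin al

theorem D_rel (a b t : ℝ) (z : ℂ) :
    Real.sin (a + b) * D t z = Real.sin b * D (t - a) z + Real.sin a * D (t + b) z := by
  have hs := sin_al_pos.ne'
  unfold D
  rw [← mul_div_assoc, ← mul_div_assoc, ← mul_div_assoc, ← add_div]
  congr 1
  rw [Real.sin_add, Real.cos_sub, Real.sin_sub, Real.cos_add, Real.sin_add]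
  ring

theorem D_add_pi (t : ℝ) (z : ℂ) : D (t + Real.pi) z = -D t z := by
  unfold D
  rw [Real.cos_add_pi, Real.sin_add_pi]
  ring

/-- the functional number `k` -/
noncomputable def F (k : ℕ) (z : ℂ) : ℝ := D (k * al) z

theorem six_al : 6 * al = Real.pi := by unfold al; ring

theorem F_add_six (k : ℕ) (z : ℂ) : F (k + 6) z = -F k z := by
  unfold F
  rw [← D_add_pi]
  congr 1
  push_cast
  rw [add_mul, six_al]

theorem F_add_twelve (k : ℕ) (z : ℂ) : F (k + 12) z = F k z := by
  rw [show k + 12 = (k + 6) + 6 by ring, F_add_six, F_add_six, neg_neg]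

theorem F_mod (k : ℕ) (z : ℂ) : F (k % 12) z = F k z := by
  have h : ∀ q r : ℕ, F (r + 12 * q) z = F r z := by
    intro q
    induction q with
    | zero => intro r; simp
    | succ q ih =>
      intro r
      rw [show r + 12 * (q + 1) = (r + 12 * q) + 12 by ring, F_add_twelve, ih]
  conv_rhs => rw [← Nat.mod_add_div k 12]
  rw [h]

theorem F_rel (a b k : ℕ) (z : ℂ) (ha : a ≤ 12) :
    Real.sin ((a + b : ℕ) * al) * F k z =
      Real.sin (b * al) * F ((k + (12 - a)) % 12) z + Real.sin (a * al) * F ((k + b) % 12) z := by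
  rw [F_mod, F_mod]
  have h1 : F (k + (12 - a)) z = D (k * al - a * al) z := by
    have : F (k + (12 - a)) z = D ((k * al - a * al) + Real.pi + Real.pi) z := by
      unfold F
      congr 1
      rw [Nat.cast_add, Nat.cast_sub ha]
      have := six_al
      push_cast
      linarith
    rw [this, D_add_pi, D_add_pi, neg_neg]
  have h2 : F (k + b) z = D (k * al + b * al) z := by
    unfold F; congr 1; push_cast; ring
  rw [h1, h2]
  have := D_rel (a * al) (b * al) (k * al) z
  rw [← this]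
  unfold F
  push_cast
  rw [add_mul]

/-- the functional as a continuous linear map -/
noncomputable def Fl (k : ℕ) : ℂ →L[ℝ] ℝ :=
  (Real.cos (k * al) / Real.sin al) • Complex.imCLM -
    (Real.sin (k * al) / Real.sin al) • Complex.reCLM

theorem Fl_apply (k : ℕ) (z : ℂ) : Fl k z = F k z := by
  simp only [Fl, F, D, FunLike.coe_sub, FunLike.coe_smul, Pi.sub_apply,
    Pi.smul_apply, Complex.imCLM_apply, Complex.reCLM_apply, smul_eq_mul]
  ring

/-! ### regions -/

/-- upper bounds for the twelve functionals -/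
abbrev Box := List Q

def Box.u (B : Box) (k : ℕ) : Q := B.getD k ⟨0, 0⟩

/-- the region given by the bounds -/
def Box.set (B : Box) : Set ℂ := {z | ∀ k < 12, F k z ≤ (B.u k).val}

def mk (f : ℕ → Q) : Box := (List.range 12).map f

theorem mk_u (f : ℕ → Q) (k : ℕ) (hk : k < 12) : Box.u (mk f) k = f k := by
  unfold Box.u mk
  rw [List.getD_eq_getElem?_getD, List.getElem?_map, List.getElem?_range hk]
  rfl

theorem Box.set_eq (B : Box) : B.set = ⋂ k : Fin 12, Fl k ⁻¹' Iic (B.u k).val := by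
  ext z
  simp only [Box.set, mem_ofPred_eq, mem_iInter, mem_preimage, mem_Iic, Fl_apply]
  constructor
  · intro h k; exact h k k.2
  · intro h k hk; exact h ⟨k, hk⟩

theorem Box.convex (B : Box) : Convex ℝ B.set := by
  rw [B.set_eq]
  exact convex_iInter fun k => (convex_Iic _).linear_preimage (Fl k).toLinearMap

theorem Box.isClosed (B : Box) : IsClosed B.set := by
  rw [B.set_eq]
  exact isClosed_iInter fun k => isClosed_Iic.preimage (Fl k).continuous

theorem F0_eq (z : ℂ) : F 0 z = 2 * z.im := by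
  unfold F D
  rw [sin_al]
  simp
  ring

theorem F3_eq (z : ℂ) : F 3 z = -2 * z.re := by
  unfold F D
  have : ((3 : ℕ) : ℝ) * al = Real.pi / 2 := by unfold al; push_cast; ring
  rw [this, sin_al, Real.cos_pi_div_two, Real.sin_pi_div_two]
  ring

theorem Box.isCompact (B : Box) : IsCompact B.set := by
  have h1 : IsCompact (Icc (-(B.u 3).val / 2) ((B.u 9).val / 2) ×ℂ
      Icc (-(B.u 6).val / 2) ((B.u 0).val / 2)) :=
    isCompact_Icc.reProdIm isCompact_Icc
  refine h1.of_isClosed_subset B.isClosed ?_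
  intro z hz
  have a0 := hz 0 (by norm_num)
  have a3 := hz 3 (by norm_num)
  have a6 := hz 6 (by norm_num)
  have a9 := hz 9 (by norm_num)
  rw [show F 6 z = -F 0 z from F_add_six 0 z] at a6
  rw [show F 9 z = -F 3 z from F_add_six 3 z] at a9
  rw [F0_eq] at a0 a6
  rw [F3_eq] at a3 a9
  exact ⟨⟨by linarith, by linarith⟩, ⟨by linarith, by linarith⟩⟩

/-- points of the open region are interior -/
theorem Box.mem_interior (B : Box) {z : ℂ} (h : ∀ k < 12, F k z < (B.u k).val) :
    z ∈ interior B.set := by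
  rw [_root_.mem_interior]
  refine ⟨⋂ k : Fin 12, Fl k ⁻¹' Iio (B.u k).val, ?_, ?_, ?_⟩
  · rw [B.set_eq]
    exact iInter_mono fun k => preimage_mono Iio_subset_Iic_self
  · exact isOpen_iInter_of_finite fun k => isOpen_Iio.preimage (Fl k).continuous
  · apply mem_iInter.2
    intro k
    show Fl k z < _
    rw [Fl_apply]
    exact h k k.2

theorem Box.closure_interior (B : Box) (h : (interior B.set).Nonempty) :
    closure (interior B.set) = B.set := by
  rw [B.convex.closure_interior_eq_closure_of_nonempty_interior h, B.isClosed.closure_eq]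

/-! ### separated regions -/

theorem exists_pos_of_interior {P : Set ℂ} {z : ℂ} (hz : z ∈ interior P) (d : ℂ) :
    ∃ δ : ℝ, 0 < δ ∧ z + δ • d ∈ P := by
  have hc : Continuous fun δ : ℝ => z + δ • d := by fun_prop
  have h0 : (fun δ : ℝ => z + δ • d) ⁻¹' (interior P) ∈ nhds (0 : ℝ) := by
    apply (isOpen_interior.preimage hc).mem_nhds
    simpa using hz
  obtain ⟨ε, hε, hb⟩ := Metric.mem_nhds_iff.1 h0
  refine ⟨ε / 2, by positivity, interior_subset (hb ?_)⟩
  rw [Metric.mem_ball, Real.dist_eq, sub_zero, abs_of_pos (by positivity)]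
  linarith

theorem F_ne (k : ℕ) : ∃ d : ℂ, Fl k d ≠ 0 := by
  have hs := sin_al_pos
  refine ⟨⟨-Real.sin (k * al), Real.cos (k * al)⟩, ?_⟩
  rw [Fl_apply]
  have e : F k ⟨-Real.sin (k * al), Real.cos (k * al)⟩ = 1 / Real.sin al := by
    unfold F D
    congr 1
    have := Real.sin_sq_add_cos_sq (k * al)
    simp only
    nlinarith
  rw [e]
  exact (one_div_pos.2 hs).ne'

theorem interior_level (k : ℕ) (c : ℝ) : interior {z | Fl k z = c} = ∅ := by
  rw [Set.eq_empty_iff_forall_notMem]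
  intro z hz
  obtain ⟨d, hd⟩ := F_ne k
  obtain ⟨δ, hδ, h1⟩ := exists_pos_of_interior hz d
  have h2 : z ∈ {z | Fl k z = c} := interior_subset hz
  change Fl k z = c at h2
  have h3 : Fl k (z + δ • d) = c := h1
  rw [map_add, map_smul, h2, smul_eq_mul] at h3
  have : δ * Fl k d = 0 := by linarith
  rcases mul_eq_zero.1 this with h | h
  · exact hδ.ne' h
  · exact hd h

/-- some line of the six directions separates the two regions -/
def sep (B C : Box) : Bool :=
  (List.range 12).any fun k => (-(B.u k + C.u ((k + 6) % 12))).nonneg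

theorem interior_inter_of_sep {B C : Box} (h : sep B C = true) :
    interior (B.set ∩ C.set) = ∅ := by
  simp only [sep, List.any_eq_true, List.mem_range] at h
  obtain ⟨k, hk, h⟩ := h
  have h' := Q.val_nonneg h
  rw [Q.val_neg, Q.val_add] at h'
  apply Set.subset_eq_empty _ (interior_level k (B.u k).val)
  apply interior_mono
  rintro z ⟨hB, hC⟩
  have h1 := hB k hk
  have h2 := hC ((k + 6) % 12) (Nat.mod_lt _ (by norm_num))
  rw [F_mod, F_add_six] at h2
  show Fl k z = _
  rw [Fl_apply]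
  linarith

/-! ### containment -/

/-- the bound `c` for the functional `k` is implied by those of `B` -/
def imp (B : Box) (k : ℕ) (c : Q) : Bool :=
  (B.u k).le c ||
    [(1, 1), (1, 2), (2, 1), (1, 3), (2, 2), (3, 1), (1, 4), (2, 3), (3, 2), (4, 1)].any
      fun p : ℕ × ℕ => (sn p.2 * B.u ((k + (12 - p.1)) % 12) + sn p.1 * B.u ((k + p.2) % 12)).le
        (sn (p.1 + p.2) * c)

theorem sin_nonneg' (k : ℕ) (hk : k ≤ 6) : 0 ≤ Real.sin (k * al) := by
  apply Real.sin_nonneg_of_nonneg_of_le_pi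
  · unfold al; positivity
  · rw [← six_al]
    have : (k : ℝ) ≤ 6 := by exact_mod_cast hk
    exact mul_le_mul_of_nonneg_right this (by unfold al; positivity)

theorem sin_pos' (k : ℕ) (h0 : 0 < k) (hk : k < 6) : 0 < Real.sin (k * al) := by
  have hp : 0 < al := by unfold al; positivity
  apply Real.sin_pos_of_pos_of_lt_pi
  · have : (0 : ℝ) < k := by exact_mod_cast h0
    positivity
  · rw [← six_al]
    have : (k : ℝ) < 6 := by exact_mod_cast hk
    exact mul_lt_mul_of_pos_right this hp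

theorem imp_sound {B : Box} {k : ℕ} {c : Q} (hk : k < 12) (h : imp B k c = true) {z : ℂ}
    (hz : z ∈ B.set) : F k z ≤ c.val := by
  rw [imp, Bool.or_eq_true] at h
  rcases h with h | h
  · exact (hz k hk).trans (Q.val_le h)
  · rw [List.any_eq_true] at h
    obtain ⟨⟨a, b⟩, hm, h⟩ := h
    have hab : 1 ≤ a ∧ 1 ≤ b ∧ a + b < 6 := by
      simp only [List.mem_cons, Prod.mk.injEq, List.not_mem_nil, or_false] at hm
      omega
    obtain ⟨ha, hb, hc⟩ := hab
    have h' := Q.val_le h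
    simp only [Q.val_add, Q.val_mul] at h'
    have hr := F_rel a b k z (by omega)
    have h1 := hz ((k + (12 - a)) % 12) (Nat.mod_lt _ (by norm_num))
    have h2 := hz ((k + b) % 12) (Nat.mod_lt _ (by norm_num))
    have sa := sn_val a (by omega)
    have sb := sn_val b (by omega)
    have sab := sn_val (a + b) (by omega)
    have pa : 0 ≤ Real.sin (a * al) := sin_nonneg' a (by omega)
    have pb : 0 ≤ Real.sin (b * al) := sin_nonneg' b (by omega)
    have pab : 0 < Real.sin ((a + b : ℕ) * al) := sin_pos' (a + b) (by omega) hc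
    have q1 := mul_le_mul_of_nonneg_left h1 pb
    have q2 := mul_le_mul_of_nonneg_left h2 pa
    have q3 := mul_le_mul_of_nonneg_right h' sin_al_pos.le
    have e1 : ((sn b).val * (Box.u B ((k + (12 - a)) % 12)).val +
        (sn a).val * (Box.u B ((k + b) % 12)).val) * Real.sin al =
        Real.sin (b * al) * (Box.u B ((k + (12 - a)) % 12)).val +
        Real.sin (a * al) * (Box.u B ((k + b) % 12)).val := by
      rw [← sa, ← sb]; ring
    have e2 : (sn (a + b)).val * c.val * Real.sin al = Real.sin ((a + b : ℕ) * al) * c.val := by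
      rw [← sab]; ring
    rw [e1, e2] at q3
    have q4 : Real.sin ((a + b : ℕ) * al) * F k z ≤ Real.sin ((a + b : ℕ) * al) * c.val := by
      linarith
    exact le_of_mul_le_mul_left q4 pab

/-- a test for containment -/
def sub (B C : Box) : Bool := (List.range 12).all fun k => imp B k (C.u k)

theorem sub_sound {B C : Box} (h : sub B C = true) : B.set ⊆ C.set := by
  intro z hz k hk
  rw [sub, List.all_eq_true] at h
  exact imp_sound hk (h k (List.mem_range.2 hk)) hz

/-- a binary partition of the plane by lines of the six directions -/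
inductive Tree
  | leaf (i : ℕ)
  | node (k : ℕ) (c : Q) (l r : Tree)

/-- a region is covered by the first `n` boxes of the table -/
def chk (T : ℕ → Box) (n : ℕ) : Tree → Box → Bool
  | .leaf i, B => decide (i < n) && sub B (T i)
  | .node k c l r, B =>
    decide (k < 6) && (chk T n l (mk fun j => if j = k then c else B.u j) &&
      chk T n r (mk fun j => if j = k + 6 then -c else B.u j))

theorem chk_sound (T : ℕ → Box) (n : ℕ) (t : Tree) : ∀ B : Box, chk T n t B = true →
    ∀ z ∈ B.set, ∃ i < n, z ∈ (T i).set := by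
  induction t with
  | leaf i =>
    intro B h z hz
    rw [chk, Bool.and_eq_true, decide_eq_true_eq] at h
    exact ⟨i, h.1, sub_sound h.2 hz⟩
  | node k c l r ihl ihr =>
    intro B h z hz
    rw [chk, Bool.and_eq_true, Bool.and_eq_true, decide_eq_true_eq] at h
    obtain ⟨hk, h1, h2⟩ := h
    rcases le_total (F k z) c.val with hc | hc
    · apply ihl _ h1 z
      intro j hj
      rw [mk_u _ j hj]
      split_ifs with hjk
      · rw [hjk]; exact hc
      · exact hz j hj
    · apply ihr _ h2 z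
      intro j hj
      rw [mk_u _ j hj]
      split_ifs with hjk
      · rw [hjk, F_add_six, Q.val_neg]
        exact neg_le_neg hc
      · exact hz j hj

end Pool.Agent.helper56.Dod
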