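import Pool.Agent.helper56.Dod.Move

/-!
The 48 pieces of the dodecagon of side `4`, and the finite verifications.
-/

set_option autoImplicit false

namespace Pool.Agent.helper56.Dod

open Set

/-- the two convex parts of the prototile -/
def boxW : Box :=
  [⟨2, 0⟩, ⟨0, 0⟩, ⟨0, 0⟩, ⟨0, 0⟩, ⟨0, 0⟩, ⟨0, 0⟩, ⟨0, 0⟩, ⟨2, 1⟩, ⟨3, 2⟩, ⟨4, 2⟩, ⟨4, 2⟩, ⟨2, 2⟩]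
def boxT : Box :=
  [⟨2, 0⟩, ⟨-2, 0⟩, ⟨0, -2⟩, ⟨-4, 0⟩, ⟨0, -2⟩, ⟨-2, 0⟩, ⟨2, 0⟩, ⟨2, 2⟩, ⟨4, 2⟩, ⟨4, 2⟩, ⟨4, 2⟩, ⟨2, 2⟩]

/-- the dodecagon of side `4` -/
def boxO : Box := mk fun _ => ⟨8, 4⟩

/-- the isometries carrying the prototile to the pieces -/
def codes : List Code := [
  ⟨true, 6, 1, 1, -1, 0⟩,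
  ⟨false, 5, 1, 0, -2, -2⟩,
  ⟨false, 2, 0, -1, -2, -1⟩,
  ⟨false, 3, 0, -1, -2, -1⟩,
  ⟨false, 4, 0, -1, -2, -1⟩,
  ⟨false, 4, 1, 0, -2, -2⟩,
  ⟨false, 1, -1, -2, -1, 0⟩,
  ⟨false, 2, -1, -2, -1, 0⟩,
  ⟨false, 3, -1, -2, -1, 0⟩,
  ⟨false, 0, -2, -2, 0, 1⟩,
  ⟨false, 1, -2, -2, 0, 1⟩,
  ⟨false, 2, -2, -2, 0, 1⟩,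
  ⟨false, 5, -1, -1, 1, 1⟩,
  ⟨false, 7, -1, 0, 1, 1⟩,
  ⟨false, 4, -1, -1, 1, 1⟩,
  ⟨false, 1, -1, -1, 1, 1⟩,
  ⟨false, 2, -1, -1, 1, 1⟩,
  ⟨false, 3, -1, -1, 1, 1⟩,
  ⟨false, 0, -2, -1, 2, 2⟩,
  ⟨false, 3, 0, 0, 1, 1⟩,
  ⟨false, 2, 0, 0, 1, 1⟩,
  ⟨false, 6, 2, 1, -2, -2⟩,
  ⟨false, 3, 1, 0, -2, -2⟩,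
  ⟨false, 5, 2, 1, -2, -2⟩,
  ⟨false, 3, 0, -1, -1, 0⟩,
  ⟨true, 1, -1, -1, 0, 1⟩,
  ⟨false, 7, 0, 1, 1, 1⟩,
  ⟨false, 1, 0, 0, 1, 1⟩,
  ⟨false, 10, 0, 1, 2, 1⟩,
  ⟨true, 3, 1, 1, 0, 0⟩,
  ⟨false, 8, 0, 1, 1, 1⟩,
  ⟨false, 9, 0, 1, 1, 1⟩,
  ⟨false, 1, 1, 1, 0, 0⟩,
  ⟨false, 0, 1, 1, 0, 0⟩,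
  ⟨true, 0, 0, -1, -1, 0⟩,
  ⟨false, 6, 1, 0, -1, 0⟩,
  ⟨true, 8, 0, 0, 0, 1⟩,
  ⟨false, 0, 0, 0, -1, 0⟩,
  ⟨false, 6, 2, 1, -1, -1⟩,
  ⟨false, 7, 2, 1, -1, -1⟩,
  ⟨false, 8, 2, 1, -1, -1⟩,
  ⟨true, 2, 2, 1, -2, -2⟩,
  ⟨true, 5, 1, 1, -1, 0⟩,
  ⟨false, 10, 0, 1, 0, 0⟩,
  ⟨true, 1, 1, 1, -1, -1⟩,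
  ⟨false, 11, 0, 1, 0, 0⟩,
  ⟨false, 11, 1, 1, 0, 0⟩,
  ⟨false, 8, 2, 2, 0, -1⟩]

/-- the two convex parts of the pieces -/
def tab : List (Box × Box) := [
  ([⟨4, -2⟩, ⟨-2, 2⟩, ⟨2, 0⟩, ⟨2, 0⟩, ⟨-1, 2⟩, ⟨4, -1⟩, ⟨-2, 2⟩, ⟨4, 0⟩, ⟨2, 2⟩, ⟨2, 2⟩, ⟨4, 0⟩, ⟨-2, 2⟩],
   [⟨4, -2⟩, ⟨-2, 2⟩, ⟨2, 0⟩, ⟨2, 0⟩, ⟨0, 2⟩, ⟨4, 0⟩, ⟨0, 2⟩, ⟨2, 0⟩, ⟨2, 0⟩, ⟨-2, 2⟩, ⟨4, -2⟩, ⟨-4, 2⟩]),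
  ([⟨-6, -3⟩, ⟨-3, -2⟩, ⟨0, 0⟩, ⟨4, 2⟩, ⟨6, 4⟩, ⟨8, 4⟩, ⟨8, 4⟩, ⟨6, 4⟩, ⟨4, 2⟩, ⟨0, 0⟩, ⟨-4, -2⟩, ⟨-6, -4⟩],
   [⟨-6, -2⟩, ⟨-2, -2⟩, ⟨0, 0⟩, ⟨4, 2⟩, ⟨6, 4⟩, ⟨8, 4⟩, ⟨6, 4⟩, ⟨6, 2⟩, ⟨0, 2⟩, ⟨0, -2⟩, ⟨-6, -2⟩, ⟨-4, -4⟩]),
  ([⟨-2, -2⟩, ⟨-2, 0⟩, ⟨2, 0⟩, ⟨4, 2⟩, ⟨6, 4⟩, ⟨8, 4⟩, ⟨6, 4⟩, ⟨4, 2⟩, ⟨0, 0⟩, ⟨-2, -1⟩, ⟨-3, -2⟩, ⟨-4, -2⟩],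
   [⟨-2, -2⟩, ⟨-2, 0⟩, ⟨2, 0⟩, ⟨2, 2⟩, ⟨6, 2⟩, ⟨4, 4⟩, ⟨6, 2⟩, ⟨2, 2⟩, ⟨2, 0⟩, ⟨-2, 0⟩, ⟨-2, -2⟩, ⟨-4, -2⟩]),
  ([⟨-2, -2⟩, ⟨0, 0⟩, ⟨2, 2⟩, ⟨6, 2⟩, ⟨6, 4⟩, ⟨8, 4⟩, ⟨6, 4⟩, ⟨4, 2⟩, ⟨0, 0⟩, ⟨-4, -2⟩, ⟨-4, -3⟩, ⟨-5, -2⟩],
   [⟨-2, -2⟩, ⟨0, 0⟩, ⟨2, 2⟩, ⟨6, 2⟩, ⟨4, 4⟩, ⟨8, 2⟩, ⟨2, 4⟩, ⟨4, 0⟩, ⟨-2, 0⟩, ⟨-2, -2⟩, ⟨-4, -2⟩, ⟨-4, -2⟩]),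
  ([⟨-3, -2⟩, ⟨0, 0⟩, ⟨4, 2⟩, ⟨6, 4⟩, ⟨8, 4⟩, ⟨8, 4⟩, ⟨6, 4⟩, ⟨4, 2⟩, ⟨0, 0⟩, ⟨-4, -2⟩, ⟨-6, -4⟩, ⟨-6, -3⟩],
   [⟨-2, -2⟩, ⟨0, 0⟩, ⟨4, 2⟩, ⟨6, 4⟩, ⟨8, 4⟩, ⟨6, 4⟩, ⟨6, 2⟩, ⟨0, 2⟩, ⟨0, -2⟩, ⟨-6, -2⟩, ⟨-4, -4⟩, ⟨-6, -2⟩]),
  ([⟨-5, -2⟩, ⟨-2, -2⟩, ⟨0, 0⟩, ⟨2, 2⟩, ⟨6, 2⟩, ⟨6, 4⟩, ⟨8, 4⟩, ⟨6, 4⟩, ⟨4, 2⟩, ⟨0, 0⟩, ⟨-4, -2⟩, ⟨-4, -3⟩],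
   [⟨-4, -2⟩, ⟨-2, -2⟩, ⟨0, 0⟩, ⟨2, 2⟩, ⟨6, 2⟩, ⟨4, 4⟩, ⟨8, 2⟩, ⟨2, 4⟩, ⟨4, 0⟩, ⟨-2, 0⟩, ⟨-2, -2⟩, ⟨-4, -2⟩]),
  ([⟨-2, 0⟩, ⟨2, 0⟩, ⟨4, 2⟩, ⟨6, 4⟩, ⟨8, 4⟩, ⟨6, 4⟩, ⟨4, 2⟩, ⟨0, 0⟩, ⟨-2, -1⟩, ⟨-3, -2⟩, ⟨-4, -2⟩, ⟨-2, -2⟩],
   [⟨-2, 0⟩, ⟨2, 0⟩, ⟨2, 2⟩, ⟨6, 2⟩, ⟨4, 4⟩, ⟨6, 2⟩, ⟨2, 2⟩, ⟨2, 0⟩, ⟨-2, 0⟩, ⟨-2, -2⟩, ⟨-4, -2⟩, ⟨-2, -2⟩]),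
  ([⟨0, 0⟩, ⟨2, 2⟩, ⟨6, 2⟩, ⟨6, 4⟩, ⟨8, 4⟩, ⟨6, 4⟩, ⟨4, 2⟩, ⟨0, 0⟩, ⟨-4, -2⟩, ⟨-4, -3⟩, ⟨-5, -2⟩, ⟨-2, -2⟩],
   [⟨0, 0⟩, ⟨2, 2⟩, ⟨6, 2⟩, ⟨4, 4⟩, ⟨8, 2⟩, ⟨2, 4⟩, ⟨4, 0⟩, ⟨-2, 0⟩, ⟨-2, -2⟩, ⟨-4, -2⟩, ⟨-4, -2⟩, ⟨-2, -2⟩]),
  ([⟨0, 0⟩, ⟨4, 2⟩, ⟨6, 4⟩, ⟨8, 4⟩, ⟨8, 4⟩, ⟨6, 4⟩, ⟨4, 2⟩, ⟨0, 0⟩, ⟨-4, -2⟩, ⟨-6, -4⟩, ⟨-6, -3⟩, ⟨-3, -2⟩],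
   [⟨0, 0⟩, ⟨4, 2⟩, ⟨6, 4⟩, ⟨8, 4⟩, ⟨6, 4⟩, ⟨6, 2⟩, ⟨0, 2⟩, ⟨0, -2⟩, ⟨-6, -2⟩, ⟨-4, -4⟩, ⟨-6, -2⟩, ⟨-2, -2⟩]),
  ([⟨2, 0⟩, ⟨4, 2⟩, ⟨6, 4⟩, ⟨8, 4⟩, ⟨6, 4⟩, ⟨4, 2⟩, ⟨0, 0⟩, ⟨-2, -1⟩, ⟨-3, -2⟩, ⟨-4, -2⟩, ⟨-2, -2⟩, ⟨-2, 0⟩],
   [⟨2, 0⟩, ⟨2, 2⟩, ⟨6, 2⟩, ⟨4, 4⟩, ⟨6, 2⟩, ⟨2, 2⟩, ⟨2, 0⟩, ⟨-2, 0⟩, ⟨-2, -2⟩, ⟨-4, -2⟩, ⟨-2, -2⟩, ⟨-2, 0⟩]),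
  ([⟨2, 2⟩, ⟨6, 2⟩, ⟨6, 4⟩, ⟨8, 4⟩, ⟨6, 4⟩, ⟨4, 2⟩, ⟨0, 0⟩, ⟨-4, -2⟩, ⟨-4, -3⟩, ⟨-5, -2⟩, ⟨-2, -2⟩, ⟨0, 0⟩],
   [⟨2, 2⟩, ⟨6, 2⟩, ⟨4, 4⟩, ⟨8, 2⟩, ⟨2, 4⟩, ⟨4, 0⟩, ⟨-2, 0⟩, ⟨-2, -2⟩, ⟨-4, -2⟩, ⟨-4, -2⟩, ⟨-2, -2⟩, ⟨0, 0⟩]),
  ([⟨4, 2⟩, ⟨6, 4⟩, ⟨8, 4⟩, ⟨8, 4⟩, ⟨6, 4⟩, ⟨4, 2⟩, ⟨0, 0⟩, ⟨-4, -2⟩, ⟨-6, -4⟩, ⟨-6, -3⟩, ⟨-3, -2⟩, ⟨0, 0⟩],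
   [⟨4, 2⟩, ⟨6, 4⟩, ⟨8, 4⟩, ⟨6, 4⟩, ⟨6, 2⟩, ⟨0, 2⟩, ⟨0, -2⟩, ⟨-6, -2⟩, ⟨-4, -4⟩, ⟨-6, -2⟩, ⟨-2, -2⟩, ⟨0, 0⟩]),
  ([⟨4, 3⟩, ⟨7, 4⟩, ⟨8, 4⟩, ⟨6, 4⟩, ⟨4, 2⟩, ⟨0, 0⟩, ⟨-2, -2⟩, ⟨-4, -2⟩, ⟨-4, -2⟩, ⟨-2, -2⟩, ⟨-2, 0⟩, ⟨2, 0⟩],
   [⟨4, 4⟩, ⟨8, 4⟩, ⟨8, 4⟩, ⟨6, 4⟩, ⟨4, 2⟩, ⟨0, 0⟩, ⟨-4, -2⟩, ⟨-4, -4⟩, ⟨-8, -2⟩, ⟨-2, -4⟩, ⟨-4, 0⟩, ⟨4, 0⟩]),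
  ([⟨4, 2⟩, ⟨4, 2⟩, ⟨4, 3⟩, ⟨5, 2⟩, ⟨2, 2⟩, ⟨2, 0⟩, ⟨-2, 0⟩, ⟨-2, -2⟩, ⟨-2, -2⟩, ⟨-2, 0⟩, ⟨2, 0⟩, ⟨2, 2⟩],
   [⟨2, 2⟩, ⟨6, 2⟩, ⟨4, 4⟩, ⟨6, 2⟩, ⟨2, 2⟩, ⟨2, 0⟩, ⟨-2, 0⟩, ⟨-2, -2⟩, ⟨-4, -2⟩, ⟨-2, -2⟩, ⟨-2, 0⟩, ⟨2, 0⟩]),
  ([⟨5, 4⟩, ⟨8, 4⟩, ⟨8, 4⟩, ⟨4, 4⟩, ⟨4, 0⟩, ⟨-2, 0⟩, ⟨-2, -2⟩, ⟨-4, -2⟩, ⟨-4, -2⟩, ⟨-2, -2⟩, ⟨-2, 0⟩, ⟨4, 1⟩],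
   [⟨6, 4⟩, ⟨8, 4⟩, ⟨8, 4⟩, ⟨4, 4⟩, ⟨4, 0⟩, ⟨-4, 0⟩, ⟨-2, -4⟩, ⟨-8, -2⟩, ⟨-4, -4⟩, ⟨-4, -2⟩, ⟨0, 0⟩, ⟨4, 2⟩]),
  ([⟨4, 4⟩, ⟨6, 2⟩, ⟨4, 2⟩, ⟨2, 2⟩, ⟨2, 0⟩, ⟨-2, 0⟩, ⟨-2, -2⟩, ⟨-4, -2⟩, ⟨-2, -1⟩, ⟨1, 0⟩, ⟨2, 2⟩, ⟨6, 2⟩],
   [⟨4, 4⟩, ⟨6, 2⟩, ⟨2, 2⟩, ⟨2, 0⟩, ⟨-2, 0⟩, ⟨-2, -2⟩, ⟨-4, -2⟩, ⟨-2, -2⟩, ⟨-2, 0⟩, ⟨2, 0⟩, ⟨2, 2⟩, ⟨6, 2⟩]),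
  ([⟨6, 4⟩, ⟨6, 4⟩, ⟨6, 2⟩, ⟨2, 2⟩, ⟨2, 0⟩, ⟨-2, 0⟩, ⟨-2, -2⟩, ⟨-4, -2⟩, ⟨-4, -2⟩, ⟨0, -1⟩, ⟨1, 2⟩, ⟨6, 2⟩],
   [⟨6, 4⟩, ⟨6, 4⟩, ⟨6, 2⟩, ⟨0, 2⟩, ⟨2, -2⟩, ⟨-6, 0⟩, ⟨-2, -4⟩, ⟨-6, -2⟩, ⟨-2, -2⟩, ⟨0, 0⟩, ⟨2, 2⟩, ⟨6, 2⟩]),
  ([⟨6, 4⟩, ⟨8, 4⟩, ⟨6, 4⟩, ⟨4, 2⟩, ⟨2, 0⟩, ⟨-2, 0⟩, ⟨-2, -2⟩, ⟨-4, -2⟩, ⟨-4, -2⟩, ⟨-2, -2⟩, ⟨0, 1⟩, ⟨5, 2⟩],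
   [⟨6, 4⟩, ⟨8, 4⟩, ⟨6, 4⟩, ⟨4, 2⟩, ⟨0, 0⟩, ⟨-2, -2⟩, ⟨-6, -2⟩, ⟨-4, -4⟩, ⟨-6, -2⟩, ⟨0, -2⟩, ⟨0, 2⟩, ⟨6, 2⟩]),
  ([⟨8, 4⟩, ⟨8, 4⟩, ⟨6, 4⟩, ⟨4, 2⟩, ⟨0, 0⟩, ⟨-4, -2⟩, ⟨-6, -4⟩, ⟨-6, -3⟩, ⟨-3, -2⟩, ⟨0, 0⟩, ⟨4, 2⟩, ⟨6, 4⟩],
   [⟨8, 4⟩, ⟨6, 4⟩, ⟨6, 2⟩, ⟨0, 2⟩, ⟨0, -2⟩, ⟨-6, -2⟩, ⟨-4, -4⟩, ⟨-6, -2⟩, ⟨-2, -2⟩, ⟨0, 0⟩, ⟨4, 2⟩, ⟨6, 4⟩]),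
  ([⟨8, 4⟩, ⟨6, 4⟩, ⟨4, 2⟩, ⟨0, 0⟩, ⟨-2, -2⟩, ⟨-4, -2⟩, ⟨-4, -2⟩, ⟨-2, -2⟩, ⟨-2, 0⟩, ⟨2, 0⟩, ⟨4, 3⟩, ⟨7, 4⟩],
   [⟨8, 4⟩, ⟨6, 4⟩, ⟨4, 2⟩, ⟨0, 0⟩, ⟨-4, -2⟩, ⟨-4, -4⟩, ⟨-8, -2⟩, ⟨-2, -4⟩, ⟨-4, 0⟩, ⟨4, 0⟩, ⟨4, 4⟩, ⟨8, 4⟩]),
  ([⟨8, 4⟩, ⟨4, 4⟩, ⟨4, 0⟩, ⟨-2, 0⟩, ⟨-2, -2⟩, ⟨-4, -2⟩, ⟨-4, -2⟩, ⟨-2, -2⟩, ⟨-2, 0⟩, ⟨4, 1⟩, ⟨5, 4⟩, ⟨8, 4⟩],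
   [⟨8, 4⟩, ⟨4, 4⟩, ⟨4, 0⟩, ⟨-4, 0⟩, ⟨-2, -4⟩, ⟨-8, -2⟩, ⟨-4, -4⟩, ⟨-4, -2⟩, ⟨0, 0⟩, ⟨4, 2⟩, ⟨6, 4⟩, ⟨8, 4⟩]),
  ([⟨-6, -4⟩, ⟨-6, -3⟩, ⟨-3, -2⟩, ⟨0, 0⟩, ⟨4, 2⟩, ⟨6, 4⟩, ⟨8, 4⟩, ⟨8, 4⟩, ⟨6, 4⟩, ⟨4, 2⟩, ⟨0, 0⟩, ⟨-4, -2⟩],
   [⟨-4, -4⟩, ⟨-6, -2⟩, ⟨-2, -2⟩, ⟨0, 0⟩, ⟨4, 2⟩, ⟨6, 4⟩, ⟨8, 4⟩, ⟨6, 4⟩, ⟨6, 2⟩, ⟨0, 2⟩, ⟨0, -2⟩, ⟨-6, -2⟩]),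
  ([⟨-4, -2⟩, ⟨-2, -2⟩, ⟨-2, 0⟩, ⟨2, 0⟩, ⟨4, 2⟩, ⟨6, 4⟩, ⟨8, 4⟩, ⟨6, 4⟩, ⟨4, 2⟩, ⟨0, 0⟩, ⟨-2, -1⟩, ⟨-3, -2⟩],
   [⟨-4, -2⟩, ⟨-2, -2⟩, ⟨-2, 0⟩, ⟨2, 0⟩, ⟨2, 2⟩, ⟨6, 2⟩, ⟨4, 4⟩, ⟨6, 2⟩, ⟨2, 2⟩, ⟨2, 0⟩, ⟨-2, 0⟩, ⟨-2, -2⟩]),
  ([⟨-4, -3⟩, ⟨-5, -2⟩, ⟨-2, -2⟩, ⟨0, 0⟩, ⟨2, 2⟩, ⟨6, 2⟩, ⟨6, 4⟩, ⟨8, 4⟩, ⟨6, 4⟩, ⟨4, 2⟩, ⟨0, 0⟩, ⟨-4, -2⟩],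
   [⟨-4, -2⟩, ⟨-4, -2⟩, ⟨-2, -2⟩, ⟨0, 0⟩, ⟨2, 2⟩, ⟨6, 2⟩, ⟨4, 4⟩, ⟨8, 2⟩, ⟨2, 4⟩, ⟨4, 0⟩, ⟨-2, 0⟩, ⟨-2, -2⟩]),
  ([⟨2, 0⟩, ⟨2, 2⟩, ⟨4, 2⟩, ⟨4, 2⟩, ⟨4, 2⟩, ⟨4, 2⟩, ⟨2, 2⟩, ⟨2, 0⟩, ⟨-2, 0⟩, ⟨-2, -2⟩, ⟨-2, -1⟩, ⟨-1, 0⟩],
   [⟨2, 0⟩, ⟨2, 2⟩, ⟨4, 2⟩, ⟨4, 2⟩, ⟨2, 2⟩, ⟨4, 0⟩, ⟨-2, 2⟩, ⟨2, -2⟩, ⟨-4, 0⟩, ⟨0, -2⟩, ⟨-2, 0⟩, ⟨0, 0⟩]),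
  ([⟨4, 1⟩, ⟨2, 2⟩, ⟨4, 2⟩, ⟨4, 2⟩, ⟨2, 2⟩, ⟨2, 0⟩, ⟨-2, 0⟩, ⟨0, -2⟩, ⟨-2, 0⟩, ⟨0, 0⟩, ⟨2, 0⟩, ⟨1, 2⟩],
   [⟨4, 2⟩, ⟨4, 2⟩, ⟨2, 2⟩, ⟨4, 0⟩, ⟨-2, 2⟩, ⟨2, -2⟩, ⟨-4, 0⟩, ⟨0, -2⟩, ⟨-2, 0⟩, ⟨0, 0⟩, ⟨2, 0⟩, ⟨2, 2⟩]),
  ([⟨6, 2⟩, ⟨2, 2⟩, ⟨2, 1⟩, ⟨1, 0⟩, ⟨-2, 0⟩, ⟨0, -2⟩, ⟨-4, 0⟩, ⟨0, -2⟩, ⟨0, 0⟩, ⟨2, 2⟩, ⟨6, 2⟩, ⟨4, 4⟩],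
   [⟨4, 2⟩, ⟨4, 2⟩, ⟨2, 2⟩, ⟨2, 0⟩, ⟨-2, 0⟩, ⟨0, -2⟩, ⟨-4, 0⟩, ⟨0, -2⟩, ⟨-2, 0⟩, ⟨2, 0⟩, ⟨2, 2⟩, ⟨4, 2⟩]),
  ([⟨6, 4⟩, ⟨4, 2⟩, ⟨2, 0⟩, ⟨-2, 0⟩, ⟨-2, -2⟩, ⟨-4, -2⟩, ⟨-4, -2⟩, ⟨-2, -2⟩, ⟨0, 1⟩, ⟨5, 2⟩, ⟨6, 4⟩, ⟨8, 4⟩],
   [⟨6, 4⟩, ⟨4, 2⟩, ⟨0, 0⟩, ⟨-2, -2⟩, ⟨-6, -2⟩, ⟨-4, -4⟩, ⟨-6, -2⟩, ⟨0, -2⟩, ⟨0, 2⟩, ⟨6, 2⟩, ⟨6, 4⟩, ⟨8, 4⟩]),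
  ([⟨6, 4⟩, ⟨4, 2⟩, ⟨0, 0⟩, ⟨-4, -2⟩, ⟨-6, -4⟩, ⟨-6, -3⟩, ⟨-3, -2⟩, ⟨0, 0⟩, ⟨4, 2⟩, ⟨6, 4⟩, ⟨8, 4⟩, ⟨8, 4⟩],
   [⟨6, 2⟩, ⟨0, 2⟩, ⟨0, -2⟩, ⟨-6, -2⟩, ⟨-4, -4⟩, ⟨-6, -2⟩, ⟨-2, -2⟩, ⟨0, 0⟩, ⟨4, 2⟩, ⟨6, 4⟩, ⟨8, 4⟩, ⟨6, 4⟩]),
  ([⟨6, 2⟩, ⟨1, 2⟩, ⟨0, -1⟩, ⟨-4, -2⟩, ⟨-4, -2⟩, ⟨-2, -2⟩, ⟨-2, 0⟩, ⟨2, 0⟩, ⟨2, 2⟩, ⟨6, 2⟩, ⟨6, 4⟩, ⟨6, 4⟩],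
   [⟨6, 2⟩, ⟨2, 2⟩, ⟨0, 0⟩, ⟨-2, -2⟩, ⟨-6, -2⟩, ⟨-2, -4⟩, ⟨-6, 0⟩, ⟨2, -2⟩, ⟨0, 2⟩, ⟨6, 2⟩, ⟨6, 4⟩, ⟨6, 4⟩]),
  ([⟨6, 2⟩, ⟨2, 2⟩, ⟨0, 0⟩, ⟨0, -1⟩, ⟨-3, 0⟩, ⟨0, -2⟩, ⟨-2, 0⟩, ⟨0, 0⟩, ⟨2, 0⟩, ⟨2, 2⟩, ⟨6, 2⟩, ⟨4, 4⟩],
   [⟨6, 0⟩, ⟨0, 2⟩, ⟨2, 0⟩, ⟨0, 0⟩, ⟨-2, 0⟩, ⟨0, -2⟩, ⟨-2, 0⟩, ⟨0, 0⟩, ⟨2, 0⟩, ⟨0, 2⟩, ⟨6, 0⟩, ⟨0, 4⟩]),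
  ([⟨6, 2⟩, ⟨2, 2⟩, ⟨0, 0⟩, ⟨-2, -2⟩, ⟨-4, -1⟩, ⟨-1, -2⟩, ⟨-2, 0⟩, ⟨2, 0⟩, ⟨2, 2⟩, ⟨4, 2⟩, ⟨6, 2⟩, ⟨4, 4⟩],
   [⟨2, 2⟩, ⟨2, 0⟩, ⟨-2, 0⟩, ⟨0, -2⟩, ⟨-4, 0⟩, ⟨0, -2⟩, ⟨-2, 0⟩, ⟨2, 0⟩, ⟨2, 2⟩, ⟨4, 2⟩, ⟨4, 2⟩, ⟨4, 2⟩]),
  ([⟨4, 2⟩, ⟨0, 0⟩, ⟨-2, -2⟩, ⟨-4, -2⟩, ⟨-4, -2⟩, ⟨-2, -2⟩, ⟨-2, 0⟩, ⟨2, 0⟩, ⟨4, 3⟩, ⟨7, 4⟩, ⟨8, 4⟩, ⟨6, 4⟩],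
   [⟨4, 2⟩, ⟨0, 0⟩, ⟨-4, -2⟩, ⟨-4, -4⟩, ⟨-8, -2⟩, ⟨-2, -4⟩, ⟨-4, 0⟩, ⟨4, 0⟩, ⟨4, 4⟩, ⟨8, 4⟩, ⟨8, 4⟩, ⟨6, 4⟩]),
  ([⟨4, 0⟩, ⟨-2, 0⟩, ⟨-2, -2⟩, ⟨-4, -2⟩, ⟨-4, -2⟩, ⟨-2, -2⟩, ⟨-2, 0⟩, ⟨4, 1⟩, ⟨5, 4⟩, ⟨8, 4⟩, ⟨8, 4⟩, ⟨4, 4⟩],
   [⟨4, 0⟩, ⟨-4, 0⟩, ⟨-2, -4⟩, ⟨-8, -2⟩, ⟨-4, -4⟩, ⟨-4, -2⟩, ⟨0, 0⟩, ⟨4, 2⟩, ⟨6, 4⟩, ⟨8, 4⟩, ⟨8, 4⟩, ⟨4, 4⟩]),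
  ([⟨-2, -2⟩, ⟨-2, 0⟩, ⟨2, 0⟩, ⟨2, 2⟩, ⟨4, 2⟩, ⟨4, 2⟩, ⟨4, 2⟩, ⟨4, 2⟩, ⟨2, 2⟩, ⟨2, 0⟩, ⟨-1, 0⟩, ⟨-2, -1⟩],
   [⟨0, -2⟩, ⟨-4, 0⟩, ⟨2, -2⟩, ⟨-2, 2⟩, ⟨4, 0⟩, ⟨2, 2⟩, ⟨4, 2⟩, ⟨4, 2⟩, ⟨2, 2⟩, ⟨2, 0⟩, ⟨0, 0⟩, ⟨-2, 0⟩]),
  ([⟨0, -2⟩, ⟨-2, 1⟩, ⟨3, 0⟩, ⟨2, 2⟩, ⟨4, 2⟩, ⟨4, 2⟩, ⟨2, 2⟩, ⟨4, 0⟩, ⟨0, 2⟩, ⟨2, 0⟩, ⟨0, 0⟩, ⟨-2, 0⟩],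
   [⟨2, -2⟩, ⟨-2, 2⟩, ⟨4, 0⟩, ⟨2, 2⟩, ⟨4, 2⟩, ⟨4, 2⟩, ⟨2, 2⟩, ⟨2, 0⟩, ⟨0, 0⟩, ⟨-2, 0⟩, ⟨0, -2⟩, ⟨-4, 0⟩]),
  ([⟨4, 0⟩, ⟨0, 2⟩, ⟨4, 0⟩, ⟨2, 2⟩, ⟨2, 2⟩, ⟨4, 0⟩, ⟨-1, 2⟩, ⟨2, -1⟩, ⟨-2, 0⟩, ⟨0, 0⟩, ⟨2, 0⟩, ⟨0, 2⟩],
   [⟨4, -2⟩, ⟨-2, 2⟩, ⟨4, 0⟩, ⟨2, 2⟩, ⟨2, 2⟩, ⟨4, 0⟩, ⟨0, 2⟩, ⟨2, 0⟩, ⟨0, 0⟩, ⟨-2, 0⟩, ⟨2, -2⟩, ⟨-4, 2⟩]),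
  ([⟨2, -2⟩, ⟨-2, 0⟩, ⟨0, 0⟩, ⟨2, 0⟩, ⟨0, 2⟩, ⟨4, 0⟩, ⟨0, 2⟩, ⟨4, 1⟩, ⟨3, 2⟩, ⟨2, 2⟩, ⟨4, 0⟩, ⟨-2, 2⟩],
   [⟨2, -2⟩, ⟨-4, 0⟩, ⟨0, -2⟩, ⟨-2, 0⟩, ⟨0, 0⟩, ⟨2, 0⟩, ⟨2, 2⟩, ⟨4, 2⟩, ⟨4, 2⟩, ⟨2, 2⟩, ⟨4, 0⟩, ⟨-2, 2⟩]),
  ([⟨-2, -2⟩, ⟨-4, -1⟩, ⟨-1, -2⟩, ⟨-2, 0⟩, ⟨2, 0⟩, ⟨2, 2⟩, ⟨4, 2⟩, ⟨6, 2⟩, ⟨4, 4⟩, ⟨6, 2⟩, ⟨2, 2⟩, ⟨0, 0⟩],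
   [⟨0, -2⟩, ⟨-4, 0⟩, ⟨0, -2⟩, ⟨-2, 0⟩, ⟨2, 0⟩, ⟨2, 2⟩, ⟨4, 2⟩, ⟨4, 2⟩, ⟨4, 2⟩, ⟨2, 2⟩, ⟨2, 0⟩, ⟨-2, 0⟩]),
  ([⟨-2, -2⟩, ⟨-6, -2⟩, ⟨-2, -3⟩, ⟨-3, 0⟩, ⟨2, 0⟩, ⟨4, 2⟩, ⟨4, 4⟩, ⟨8, 2⟩, ⟨4, 4⟩, ⟨6, 2⟩, ⟨2, 2⟩, ⟨0, 0⟩],
   [⟨-4, -2⟩, ⟨-4, -2⟩, ⟨-2, -2⟩, ⟨-2, 0⟩, ⟨2, 0⟩, ⟨4, 2⟩, ⟨4, 4⟩, ⟨8, 2⟩, ⟨2, 4⟩, ⟨6, 0⟩, ⟨-2, 2⟩, ⟨0, -2⟩]),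
  ([⟨-2, -2⟩, ⟨-6, -2⟩, ⟨-4, -4⟩, ⟨-4, -1⟩, ⟨1, 0⟩, ⟨4, 2⟩, ⟨6, 4⟩, ⟨8, 4⟩, ⟨6, 4⟩, ⟨6, 2⟩, ⟨2, 2⟩, ⟨0, 0⟩],
   [⟨-2, -4⟩, ⟨-8, -2⟩, ⟨-2, -4⟩, ⟨-4, 0⟩, ⟨2, 0⟩, ⟨4, 2⟩, ⟨6, 4⟩, ⟨8, 4⟩, ⟨6, 4⟩, ⟨4, 2⟩, ⟨2, 0⟩, ⟨-4, 0⟩]),
  ([⟨-3, -2⟩, ⟨-6, -3⟩, ⟨-6, -4⟩, ⟨-4, -2⟩, ⟨0, 0⟩, ⟨4, 2⟩, ⟨6, 4⟩, ⟨8, 4⟩, ⟨8, 4⟩, ⟨6, 4⟩, ⟨4, 2⟩, ⟨0, 0⟩],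
   [⟨-2, -2⟩, ⟨-6, -2⟩, ⟨-4, -4⟩, ⟨-6, -2⟩, ⟨0, -2⟩, ⟨0, 2⟩, ⟨6, 2⟩, ⟨6, 4⟩, ⟨8, 4⟩, ⟨6, 4⟩, ⟨4, 2⟩, ⟨0, 0⟩]),
  ([⟨4, 0⟩, ⟨0, 2⟩, ⟨2, 0⟩, ⟨1, 0⟩, ⟨-2, 1⟩, ⟨2, -2⟩, ⟨-2, 2⟩, ⟨4, 0⟩, ⟨2, 2⟩, ⟨2, 2⟩, ⟨4, 0⟩, ⟨0, 2⟩],
   [⟨4, 0⟩, ⟨0, 2⟩, ⟨2, 0⟩, ⟨2, 0⟩, ⟨-2, 2⟩, ⟨4, -2⟩, ⟨-4, 2⟩, ⟨4, -2⟩, ⟨-2, 2⟩, ⟨2, 0⟩, ⟨2, 0⟩, ⟨0, 2⟩]),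
  ([⟨2, 0⟩, ⟨0, 0⟩, ⟨-2, 0⟩, ⟨0, -2⟩, ⟨-4, 0⟩, ⟨2, -1⟩, ⟨1, 2⟩, ⟨4, 2⟩, ⟨6, 2⟩, ⟨2, 4⟩, ⟨6, 0⟩, ⟨0, 2⟩],
   [⟨2, -2⟩, ⟨-4, 0⟩, ⟨-2, -2⟩, ⟨-2, -2⟩, ⟨-2, 0⟩, ⟨2, 0⟩, ⟨2, 2⟩, ⟨4, 2⟩, ⟨6, 2⟩, ⟨2, 4⟩, ⟨6, 0⟩, ⟨-2, 2⟩]),
  ([⟨0, -1⟩, ⟨-4, -2⟩, ⟨-4, -2⟩, ⟨-2, -2⟩, ⟨-2, 0⟩, ⟨2, 0⟩, ⟨2, 2⟩, ⟨6, 2⟩, ⟨6, 4⟩, ⟨6, 4⟩, ⟨6, 2⟩, ⟨1, 2⟩],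
   [⟨0, 0⟩, ⟨-2, -2⟩, ⟨-6, -2⟩, ⟨-2, -4⟩, ⟨-6, 0⟩, ⟨2, -2⟩, ⟨0, 2⟩, ⟨6, 2⟩, ⟨6, 4⟩, ⟨6, 4⟩, ⟨6, 2⟩, ⟨2, 2⟩]),
  ([⟨2, 0⟩, ⟨0, 0⟩, ⟨-2, 0⟩, ⟨0, -2⟩, ⟨-4, 0⟩, ⟨0, -2⟩, ⟨0, 1⟩, ⟨3, 2⟩, ⟨6, 2⟩, ⟨4, 4⟩, ⟨6, 2⟩, ⟨2, 2⟩],
   [⟨0, 0⟩, ⟨0, -2⟩, ⟨-6, 0⟩, ⟨0, -4⟩, ⟨-6, 0⟩, ⟨2, -2⟩, ⟨0, 2⟩, ⟨4, 2⟩, ⟨6, 2⟩, ⟨4, 4⟩, ⟨6, 2⟩, ⟨2, 2⟩]),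
  ([⟨2, 0⟩, ⟨-2, 0⟩, ⟨-2, -2⟩, ⟨-4, -2⟩, ⟨-4, -2⟩, ⟨-2, -2⟩, ⟨0, 1⟩, ⟨5, 2⟩, ⟨6, 4⟩, ⟨8, 4⟩, ⟨6, 4⟩, ⟨4, 2⟩],
   [⟨0, 0⟩, ⟨-2, -2⟩, ⟨-6, -2⟩, ⟨-4, -4⟩, ⟨-6, -2⟩, ⟨0, -2⟩, ⟨0, 2⟩, ⟨6, 2⟩, ⟨6, 4⟩, ⟨8, 4⟩, ⟨6, 4⟩, ⟨4, 2⟩]),
  ([⟨0, 0⟩, ⟨-4, -2⟩, ⟨-6, -4⟩, ⟨-6, -3⟩, ⟨-3, -2⟩, ⟨0, 0⟩, ⟨4, 2⟩, ⟨6, 4⟩, ⟨8, 4⟩, ⟨8, 4⟩, ⟨6, 4⟩, ⟨4, 2⟩],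
   [⟨0, -2⟩, ⟨-6, -2⟩, ⟨-4, -4⟩, ⟨-6, -2⟩, ⟨-2, -2⟩, ⟨0, 0⟩, ⟨4, 2⟩, ⟨6, 4⟩, ⟨8, 4⟩, ⟨6, 4⟩, ⟨6, 2⟩, ⟨0, 2⟩])]

/-- a partition of the dodecagon -/
def tree : Tree :=
  (.node 0 ⟨2, 0⟩
   (.node 3 ⟨2, 0⟩
    (.node 0 ⟨-2, -2⟩
     (.node 4 ⟨4, 2⟩
      (.node 5 ⟨0, 0⟩
       (.node 2 ⟨-6, -4⟩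
        (.leaf 94)
        (.leaf 95))
       (.node 2 ⟨-6, -4⟩
        (.leaf 82)
        (.node 3 ⟨-6, -2⟩
         (.leaf 83)
         (.node 0 ⟨-4, -2⟩
          (.node 3 ⟨0, 0⟩
           (.node 0 ⟨-6, -4⟩
            (.leaf 42)
            (.node 5 ⟨6, 2⟩
             (.node 2 ⟨-2, -2⟩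
              (.node 5 ⟨4, 2⟩
               (.node 4 ⟨2, 0⟩
                (.node 2 ⟨-4, -4⟩
                 (.leaf 80)
                 (.node 1 ⟨-8, -2⟩
                  (.leaf 81)
                  (.node 1 ⟨-6, -2⟩
                   (.leaf 78)
                   (.leaf 79))))
                (.leaf 47))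
               (.leaf 46))
              (.leaf 45))
             (.leaf 43)))
           (.leaf 44))
          (.node 3 ⟨-2, 0⟩
           (.node 1 ⟨-6, -2⟩
            (.node 2 ⟨-4, -4⟩
             (.leaf 80)
             (.leaf 78))
            (.leaf 76))
           (.leaf 68))))))
      (.node 5 ⟨6, 4⟩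
       (.leaf 10)
       (.leaf 2)))
     (.node 3 ⟨-2, -2⟩
      (.node 5 ⟨-4, -2⟩
       (.leaf 67)
       (.node 2 ⟨-6, -4⟩
        (.leaf 94)
        (.node 1 ⟨-6, -2⟩
         (.leaf 95)
         (.node 5 ⟨-2, -2⟩
          (.leaf 92)
          (.node 4 ⟨-6, -2⟩
           (.leaf 93)
           (.node 1 ⟨-4, -2⟩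
            (.leaf 88)
            (.node 5 ⟨2, -2⟩
             (.node 2 ⟨-6, -2⟩
              (.leaf 89)
              (.node 5 ⟨0, -2⟩
               (.leaf 90)
               (.node 4 ⟨-6, 0⟩
                (.leaf 91)
                (.leaf 86))))
             (.leaf 87))))))))
      (.node 4 ⟨-4, 0⟩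
       (.node 5 ⟨0, -2⟩
        (.leaf 90)
        (.leaf 86))
       (.node 5 ⟨2, -2⟩
        (.leaf 84)
        (.node 0 ⟨4, -2⟩
         (.node 0 ⟨2, -2⟩
          (.node 1 ⟨-2, 0⟩
           (.node 0 ⟨0, -2⟩
            (.node 3 ⟨-2, 0⟩
             (.node 5 ⟨2, 0⟩
              (.leaf 75)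
              (.leaf 77))
             (.node 1 ⟨-4, 0⟩
              (.leaf 69)
              (.leaf 70)))
            (.leaf 74))
           (.leaf 1))
          (.leaf 0))
         (.node 2 ⟨2, 0⟩
          (.leaf 85)
          (.leaf 72)))))))
    (.node 1 ⟨4, 2⟩
     (.node 0 ⟨-2, -2⟩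
      (.node 1 ⟨0, 0⟩
       (.node 5 ⟨4, 2⟩
        (.leaf 68)
        (.node 4 ⟨6, 4⟩
         (.node 3 ⟨6, 2⟩
          (.node 3 ⟨4, 2⟩
           (.node 2 ⟨2, 0⟩
            (.node 2 ⟨0, 0⟩
             (.node 5 ⟨6, 4⟩
              (.node 4 ⟨6, 2⟩
               (.node 1 ⟨-2, -2⟩
                (.node 4 ⟨4, 2⟩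
                 (.leaf 11)
                 (.leaf 10))
                (.leaf 5))
               (.leaf 3))
              (.leaf 2))
             (.leaf 4))
            (.leaf 7))
           (.leaf 6))
          (.leaf 9))
         (.leaf 8)))
       (.node 2 ⟨4, 2⟩
        (.leaf 12)
        (.node 3 ⟨6, 4⟩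
         (.leaf 14)
         (.leaf 16))))
      (.node 3 ⟨2, 2⟩
       (.node 5 ⟨4, 0⟩
        (.node 2 ⟨4, 0⟩
         (.node 2 ⟨2, 0⟩
          (.leaf 73)
          (.leaf 72))
         (.leaf 49))
        (.node 0 ⟨0, -2⟩
         (.leaf 70)
         (.leaf 71)))
       (.node 4 ⟨2, 2⟩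
        (.leaf 48)
        (.node 4 ⟨4, 2⟩
         (.node 3 ⟨4, 2⟩
          (.leaf 48)
          (.node 0 ⟨0, 0⟩
           (.leaf 19)
           (.leaf 18)))
         (.node 2 ⟨2, 2⟩
          (.leaf 13)
          (.node 0 ⟨0, 0⟩
           (.node 3 ⟨6, 4⟩
            (.node 2 ⟨6, 2⟩
             (.node 5 ⟨2, 2⟩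
              (.leaf 19)
              (.node 2 ⟨4, 2⟩
               (.node 1 ⟨2, 0⟩
                (.leaf 12)
                (.leaf 15))
               (.leaf 14)))
             (.leaf 17))
            (.leaf 16))
           (.leaf 18)))))))
     (.node 2 ⟨6, 4⟩
      (.leaf 20)
      (.leaf 22))))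
   (.node 2 ⟨2, 0⟩
    (.node 5 ⟨0, -2⟩
     (.node 1 ⟨4, 2⟩
      (.node 1 ⟨-4, 0⟩
       (.leaf 66)
       (.node 1 ⟨-2, 0⟩
        (.node 0 ⟨4, 0⟩
         (.leaf 66)
         (.leaf 65))
        (.node 2 ⟨-4, -2⟩
         (.leaf 64)
         (.node 3 ⟨-2, -2⟩
          (.node 4 ⟨-4, -2⟩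
           (.node 0 ⟨6, 2⟩
            (.node 3 ⟨-6, -2⟩
             (.node 1 ⟨0, 0⟩
              (.leaf 64)
              (.node 4 ⟨-6, -4⟩
               (.leaf 56)
               (.leaf 57)))
             (.node 2 ⟨-2, -2⟩
              (.leaf 64)
              (.node 3 ⟨-4, -2⟩
               (.leaf 58)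
               (.node 4 ⟨-6, -2⟩
                (.leaf 59)
                (.leaf 62)))))
            (.node 4 ⟨-6, -4⟩
             (.leaf 56)
             (.node 1 ⟨2, 2⟩
              (.leaf 55)
              (.leaf 54))))
           (.leaf 62))
          (.node 1 ⟨2, 2⟩
           (.node 2 ⟨-2, 0⟩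
            (.leaf 63)
            (.node 2 ⟨0, 0⟩
             (.leaf 60)
             (.node 1 ⟨0, 2⟩
              (.leaf 61)
              (.leaf 52))))
           (.leaf 54))))))
      (.leaf 41))
     (.node 5 ⟨2, -2⟩
      (.leaf 84)
      (.leaf 85)))
    (.node 3 ⟨-4, 0⟩
     (.leaf 40)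
     (.node 1 ⟨0, 2⟩
      (.leaf 72)
      (.node 4 ⟨2, 0⟩
       (.node 3 ⟨4, 2⟩
        (.node 3 ⟨-2, 0⟩
         (.node 2 ⟨4, 0⟩
          (.leaf 40)
          (.leaf 39))
         (.node 4 ⟨-4, -2⟩
          (.leaf 38)
          (.node 1 ⟨4, 2⟩
           (.node 4 ⟨-2, 0⟩
            (.node 0 ⟨4, 2⟩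
             (.leaf 53)
             (.node 4 ⟨-2, -2⟩
              (.leaf 38)
              (.leaf 31)))
            (.node 1 ⟨2, 2⟩
             (.leaf 50)
             (.node 2 ⟨2, 2⟩
              (.leaf 51)
              (.leaf 26))))
           (.node 4 ⟨-2, -2⟩
            (.node 3 ⟨0, 0⟩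
             (.leaf 38)
             (.node 0 ⟨6, 4⟩
              (.leaf 37)
              (.leaf 36)))
            (.node 2 ⟨2, 2⟩
             (.leaf 30)
             (.node 0 ⟨6, 4⟩
              (.node 3 ⟨2, 2⟩
               (.node 2 ⟨6, 2⟩
                (.node 5 ⟨-6, -2⟩
                 (.leaf 37)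
                 (.node 2 ⟨4, 2⟩
                  (.node 1 ⟨6, 2⟩
                   (.leaf 30)
                   (.leaf 33))
                  (.leaf 32)))
                (.leaf 35))
               (.leaf 34))
              (.leaf 36)))))))
        (.leaf 29))
       (.node 1 ⟨2, 2⟩
        (.leaf 50)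
        (.node 5 ⟨-4, 0⟩
         (.leaf 28)
         (.node 5 ⟨-2, 0⟩
          (.node 4 ⟨4, 0⟩
           (.leaf 28)
           (.leaf 25))
          (.node 0 ⟨4, 2⟩
           (.node 4 ⟨2, 2⟩
            (.node 0 ⟨2, 2⟩
             (.node 1 ⟨4, 2⟩
              (.leaf 26)
              (.leaf 27))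
             (.leaf 24))
            (.node 2 ⟨4, 4⟩
             (.leaf 21)
             (.node 5 ⟨0, 0⟩
              (.leaf 24)
              (.node 2 ⟨6, 4⟩
               (.node 1 ⟨6, 2⟩
                (.leaf 20)
                (.leaf 23))
               (.leaf 22)))))
           (.leaf 24))))))))))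

/-- the two parts of the piece number `i` -/
def pW (i : ℕ) : Box := (tab.getD i ([], [])).1
def pT (i : ℕ) : Box := (tab.getD i ([], [])).2

def part (j : ℕ) : Box := if j % 2 = 0 then pW (j / 2) else pT (j / 2)

theorem tab_length : tab.length = 48 := by decide +kernel

theorem tab_eq : tab = codes.map fun c => (c.act boxW, c.act boxT) := by decide +kernel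

theorem sep_check : sepAll tab = true := by decide +kernel

theorem cover_check : chk part 96 tree boxO = true := by decide +kernel

theorem sub_check : (tab.all fun p => sub p.1 boxO && sub p.2 boxO) = true := by decide +kernel

end Pool.Agent.helper56.Dod
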