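import Mathlib

/-!
A regular polygon is the intersection of the half planes bounded by the lines of its sides.
-/

set_option autoImplicit false

namespace Pool.Agent.helper56.Dod

open Set

/-- an odd multiple of `π / n` is at distance at least `π / n` from `2 π ℤ` -/
theorem cos_odd (n : ℕ) (hn : 0 < n) (m : ℤ) :
    Real.cos ((2 * m - 1) * (Real.pi / n)) ≤ Real.cos (Real.pi / n) := by
  have hn' : (0 : ℝ) < n := by exact_mod_cast hn
  have hp := Real.pi_pos
  have hφ : 0 < Real.pi / n := by positivity
  have hnφ : (n : ℝ) * (Real.pi / n) = Real.pi := by field_simp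
  set t : ℤ := 2 * m - 1 with ht
  set r : ℤ := t % (2 * n) with hr
  have h1 : 0 ≤ r := Int.emod_nonneg _ (by omega)
  have h2 : r < 2 * n := Int.emod_lt_of_pos _ (by omega)
  have h3 : t = r + 2 * n * (t / (2 * n)) := (Int.emod_add_mul_ediv t (2 * n)).symm
  set q := t / (2 * n) with hq
  have h4 : 1 ≤ r := by
    rcases Int.even_or_odd r with he | ho
    · exfalso
      obtain ⟨s, hs⟩ := he
      have h6 : 2 * (m - s - n * q) = 1 := by
        rw [hs, ht] at h3
        linear_combination h3
      omega
    · obtain ⟨s, hs⟩ := ho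
      omega
  have h5 : r ≤ 2 * n - 1 := by omega
  have key : ∀ s : ℤ, 1 ≤ s → s ≤ n → Real.cos (s * (Real.pi / n)) ≤ Real.cos (Real.pi / n) := by
    intro s hs1 hs2
    have hs1' : (1 : ℝ) ≤ s := by exact_mod_cast hs1
    have hs2' : (s : ℝ) ≤ n := by exact_mod_cast hs2
    apply Real.cos_le_cos_of_nonneg_of_le_pi hφ.le
    · calc (s : ℝ) * (Real.pi / n) ≤ n * (Real.pi / n) :=
          mul_le_mul_of_nonneg_right hs2' hφ.le
        _ = Real.pi := hnφ
    · calc Real.pi / n = 1 * (Real.pi / n) := (one_mul _).symm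
        _ ≤ s * (Real.pi / n) := mul_le_mul_of_nonneg_right hs1' hφ.le
  have e1 : (2 * (m : ℝ) - 1) * (Real.pi / n) = r * (Real.pi / n) + q * (2 * Real.pi) := by
    have h6 : (2 * (m : ℝ) - 1) = r + 2 * n * q := by
      have := congrArg (fun z : ℤ => (z : ℝ)) h3
      simp only [ht] at this
      push_cast at this
      exact this
    rw [h6]
    linear_combination (2 * (q : ℝ)) * hnφ
  rw [e1, Real.cos_add_int_mul_two_pi]
  by_cases hc : r ≤ n
  · exact key r h4 hc
  · have h7 := key (2 * n - r) (by omega) (by omega)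
    have e2 : (((2 * n - r : ℤ)) : ℝ) * (Real.pi / n) = 2 * Real.pi - r * (Real.pi / n) := by
      push_cast
      linear_combination (2 : ℝ) * hnφ
    rwa [e2, Real.cos_two_pi_sub] at h7

/-- the vertices of the polygon -/
noncomputable def vx (n : ℕ) (k : ℕ) : ℂ :=
  ⟨Real.cos (2 * k * (Real.pi / n)), Real.sin (2 * k * (Real.pi / n))⟩

theorem exp_eq_vx (n k : ℕ) :
    Complex.exp (2 * Real.pi * Complex.I * (k : ℂ) / n) = vx n k := by
  have h : (2 * Real.pi * Complex.I * (k : ℂ) / n) =
      ((2 * k * (Real.pi / n) : ℝ) : ℂ) * Complex.I := by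
    push_cast; ring
  rw [h, Complex.exp_mul_I, ← Complex.ofReal_cos, ← Complex.ofReal_sin]
  apply Complex.ext
  · simp only [vx, Complex.add_re, Complex.mul_re, Complex.ofReal_re, Complex.ofReal_im,
      Complex.I_re, Complex.I_im]
    ring
  · simp only [vx, Complex.add_im, Complex.mul_im, Complex.ofReal_re, Complex.ofReal_im,
      Complex.I_re, Complex.I_im]
    ring

theorem vx_mod (n : ℕ) (hn : 0 < n) (k : ℕ) : vx n (k % n) = vx n k := by
  have hn' : (n : ℝ) ≠ 0 := by positivity
  have h : (2 * (k : ℝ)) * (Real.pi / n) =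
      2 * ((k % n : ℕ) : ℝ) * (Real.pi / n) + ((k / n : ℕ) : ℝ) * (2 * Real.pi) := by
    have h1 : (k : ℝ) = ((k % n : ℕ) : ℝ) + n * ((k / n : ℕ) : ℝ) := by
      exact_mod_cast (Nat.mod_add_div k n).symm
    rw [h1]
    field_simp
  rw [vx, vx, h, Real.cos_add_nat_mul_two_pi, Real.sin_add_nat_mul_two_pi]

theorem sum_vx (n : ℕ) (hn : 2 ≤ n) : ∑ k : Fin n, vx n k = 0 := by
  have h1 := (Complex.isPrimitiveRoot_exp n (by omega)).geom_sum_eq_zero (by omega)
  rw [Finset.sum_range] at h1
  rw [← h1]
  apply Finset.sum_congr rfl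
  intro k _
  rw [← exp_eq_vx, ← Complex.exp_nat_mul]
  congr 1
  ring

/-- the side number `k` of the polygon is on the line where this is `cos (π / n)` -/
noncomputable def ht (n : ℕ) (k : ℤ) (z : ℂ) : ℝ :=
  z.re * Real.cos ((2 * k + 1) * (Real.pi / n)) + z.im * Real.sin ((2 * k + 1) * (Real.pi / n))

theorem ht_add (n : ℕ) (hn : 0 < n) (k q : ℤ) (z : ℂ) : ht n (k + n * q) z = ht n k z := by
  have hn' : (n : ℝ) ≠ 0 := by positivity
  have h : (2 * ((k + n * q : ℤ) : ℝ) + 1) * (Real.pi / n) =
      (2 * (k : ℝ) + 1) * (Real.pi / n) + q * (2 * Real.pi) := by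
    push_cast
    field_simp
    ring
  rw [ht, ht, h, Real.cos_add_int_mul_two_pi, Real.sin_add_int_mul_two_pi]

theorem hull_halfplanes (n : ℕ) (hn : 3 ≤ n) :
    convexHull ℝ (range fun k : Fin n => vx n k) =
      {z | ∀ k < n, ht n (k : ℤ) z ≤ Real.cos (Real.pi / n)} := by
  have hn0 : 0 < n := by omega
  have hn' : (0 : ℝ) < n := by exact_mod_cast hn0
  have hp := Real.pi_pos
  have hφ : 0 < Real.pi / n := by positivity
  have hφ2 : Real.pi / n < Real.pi / 2 := by
    apply div_lt_div_of_pos_left hp (by norm_num)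
    have : (3 : ℝ) ≤ n := by exact_mod_cast hn
    linarith
  have hcos : 0 < Real.cos (Real.pi / n) := Real.cos_pos_of_mem_Ioo ⟨by linarith, hφ2⟩
  have hsin : 0 < Real.sin (Real.pi / n) := Real.sin_pos_of_pos_of_lt_pi hφ (by linarith)
  apply Subset.antisymm
  · have hconv : Convex ℝ {z : ℂ | ∀ k < n, ht n (k : ℤ) z ≤ Real.cos (Real.pi / n)} := by
      intro x hx y hy a b ha hb hab k hk
      have h1 := hx k hk
      have h2 := hy k hk
      have e : ht n (k : ℤ) (a • x + b • y) = a * ht n (k : ℤ) x + b * ht n (k : ℤ) y := by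
        simp only [ht, Complex.add_re, Complex.add_im, Complex.real_smul, Complex.mul_re,
          Complex.mul_im, Complex.ofReal_re, Complex.ofReal_im]
        ring
      rw [e]
      calc a * ht n (k : ℤ) x + b * ht n (k : ℤ) y
          ≤ a * Real.cos (Real.pi / n) + b * Real.cos (Real.pi / n) :=
            add_le_add (mul_le_mul_of_nonneg_left h1 ha) (mul_le_mul_of_nonneg_left h2 hb)
        _ = Real.cos (Real.pi / n) := by rw [← add_mul, hab, one_mul]
    apply convexHull_min _ hconv
    rintro _ ⟨j, rfl⟩ k hk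
    have e : ht n (k : ℤ) (vx n j) =
        Real.cos ((2 * (((j : ℕ) : ℤ) - k : ℤ) - 1) * (Real.pi / n)) := by
      have e1 : (2 * ((((j : ℕ) : ℤ) - k : ℤ) : ℝ) - 1) * (Real.pi / n) =
          2 * ((j : ℕ) : ℝ) * (Real.pi / n) - (2 * ((k : ℤ) : ℝ) + 1) * (Real.pi / n) := by
        push_cast; ring
      rw [e1, Real.cos_sub]
      rfl
    rw [e]
    exact cos_odd n hn0 _
  · intro z hz
    -- the bound holds for all integers
    have hper : ∀ k : ℤ, ∃ j < n, ht n k z = ht n (j : ℤ) z := by
      intro k
      have h1 : 0 ≤ k % n := Int.emod_nonneg _ (by omega)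
      have h2 : k % n < n := Int.emod_lt_of_pos _ (by omega)
      refine ⟨(k % n).toNat, by omega, ?_⟩
      rw [Int.toNat_of_nonneg h1]
      conv_lhs => rw [← Int.emod_add_mul_ediv k n]
      exact ht_add n hn0 _ _ z
    obtain ⟨k, hk, hmax⟩ := Finset.exists_max_image (Finset.range n) (fun k => ht n (k : ℤ) z)
      ⟨0, Finset.mem_range.2 hn0⟩
    have hmax' : ∀ j : ℤ, ht n j z ≤ ht n (k : ℤ) z := by
      intro j
      obtain ⟨i, hi, e⟩ := hper j
      rw [e]
      exact hmax i (Finset.mem_range.2 hi)
    have hle := hz k (Finset.mem_range.1 hk)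
    set φ := Real.pi / n with hφd
    set θ := (2 * (k : ℝ) + 1) * φ with hθ
    set p := z.re * Real.cos θ + z.im * Real.sin θ with hpd
    set q := -z.re * Real.sin θ + z.im * Real.cos θ with hqd
    have hsc := Real.sin_sq_add_cos_sq θ
    have hsc' := Real.sin_sq_add_cos_sq φ
    have e0 : ht n (k : ℤ) z = p := by rw [ht]; push_cast; rfl
    have e1 : ht n ((k : ℤ) + 1) z = p * Real.cos (2 * φ) + q * Real.sin (2 * φ) := by
      have : (2 * (((k : ℤ) + 1 : ℤ) : ℝ) + 1) * φ = θ + 2 * φ := by
        rw [hθ]; push_cast; ring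
      rw [ht, ← hφd, this, Real.cos_add, Real.sin_add, hpd, hqd]
      ring
    have e2 : ht n ((k : ℤ) - 1) z = p * Real.cos (2 * φ) - q * Real.sin (2 * φ) := by
      have : (2 * (((k : ℤ) - 1 : ℤ) : ℝ) + 1) * φ = θ - 2 * φ := by
        rw [hθ]; push_cast; ring
      rw [ht, ← hφd, this, Real.cos_sub, Real.sin_sub, hpd, hqd]
      ring
    have m1 := hmax' (k + 1)
    have m2 := hmax' (k - 1)
    rw [e0] at m1 m2 hle
    rw [e1, Real.cos_two_mul, Real.sin_two_mul] at m1
    rw [e2, Real.cos_two_mul, Real.sin_two_mul] at m2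
    have n1 : 0 ≤ p * Real.sin φ - q * Real.cos φ := by
      have : 0 ≤ (2 * Real.sin φ) * (p * Real.sin φ - q * Real.cos φ) := by
        have e3 : (2 * Real.sin φ) * (p * Real.sin φ - q * Real.cos φ) =
            p - (p * (2 * Real.cos φ ^ 2 - 1) + q * (2 * Real.sin φ * Real.cos φ)) := by
          linear_combination (2 * p) * hsc'
        rw [e3]; linarith
      exact nonneg_of_mul_nonneg_right this (by positivity)
    have n2 : 0 ≤ p * Real.sin φ + q * Real.cos φ := by
      have : 0 ≤ (2 * Real.sin φ) * (p * Real.sin φ + q * Real.cos φ) := by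
        have e3 : (2 * Real.sin φ) * (p * Real.sin φ + q * Real.cos φ) =
            p - (p * (2 * Real.cos φ ^ 2 - 1) - q * (2 * Real.sin φ * Real.cos φ)) := by
          linear_combination (2 * p) * hsc'
        rw [e3]; linarith
      exact nonneg_of_mul_nonneg_right this (by positivity)
    set d := 2 * Real.sin φ * Real.cos φ with hd
    have hdpos : 0 < d := by positivity
    have hdne := hdpos.ne'
    -- the three points
    have hconv : Convex ℝ (convexHull ℝ (range fun k : Fin n => vx n k)) := convex_convexHull ℝ _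
    have hv : ∀ j : ℕ, vx n j ∈ convexHull ℝ (range fun k : Fin n => vx n k) := by
      intro j
      rw [← vx_mod n hn0 j]
      exact subset_convexHull ℝ _ ⟨⟨j % n, Nat.mod_lt _ hn0⟩, rfl⟩
    have h0 : (0 : ℂ) ∈ convexHull ℝ (range fun k : Fin n => vx n k) := by
      have h1 : ∑ k : Fin n, (1 / n : ℝ) • vx n k ∈
          convexHull ℝ (range fun k : Fin n => vx n k) := by
        apply hconv.sum_mem
        · intro i _; positivity
        · rw [Finset.sum_const, Finset.card_univ, Fintype.card_fin, nsmul_eq_mul]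
          field_simp
        · intro i _; exact hv i
      rwa [← Finset.smul_sum, sum_vx n (by omega), smul_zero] at h1
    set a := (p * Real.sin φ - q * Real.cos φ) / d with ha
    set b := (p * Real.sin φ + q * Real.cos φ) / d with hb
    have ha0 : 0 ≤ a := div_nonneg n1 hdpos.le
    have hb0 : 0 ≤ b := div_nonneg n2 hdpos.le
    have hab : a + b ≤ 1 := by
      rw [ha, hb, ← add_div, div_le_one hdpos, hd]
      nlinarith
    have hz3 : z = a • vx n k + b • vx n (k + 1) + (1 - a - b) • (0 : ℂ) := by
      rw [smul_zero, add_zero]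
      have g1 : 2 * (k : ℝ) * φ = θ - φ := by rw [hθ]; ring
      have g2 : 2 * ((k + 1 : ℕ) : ℝ) * φ = θ + φ := by rw [hθ]; push_cast; ring
      have had : a * d = p * Real.sin φ - q * Real.cos φ := by rw [ha]; field_simp
      have hbd : b * d = p * Real.sin φ + q * Real.cos φ := by rw [hb]; field_simp
      have s1 : (a + b) * Real.cos φ = p := by
        have : Real.sin φ * ((a + b) * Real.cos φ) = Real.sin φ * p := by
          rw [hd] at had hbd
          linear_combination (1 / 2 : ℝ) * had + (1 / 2 : ℝ) * hbd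
        exact mul_left_cancel₀ hsin.ne' this
      have s2 : (b - a) * Real.sin φ = q := by
        have : Real.cos φ * ((b - a) * Real.sin φ) = Real.cos φ * q := by
          rw [hd] at had hbd
          linear_combination (1 / 2 : ℝ) * hbd - (1 / 2 : ℝ) * had
        exact mul_left_cancel₀ hcos.ne' this
      have r1 : z.re = p * Real.cos θ - q * Real.sin θ := by
        rw [hpd, hqd]; linear_combination (-z.re) * hsc
      have r2 : z.im = p * Real.sin θ + q * Real.cos θ := by
        rw [hpd, hqd]; linear_combination (-z.im) * hsc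
      apply Complex.ext
      · rw [r1, ← s1, ← s2]
        simp only [vx, ← hφd, g1, g2, Complex.add_re, Complex.real_smul, Complex.mul_re,
          Complex.ofReal_re, Complex.ofReal_im, Real.cos_sub, Real.cos_add, zero_mul, sub_zero]
        ring
      · rw [r2, ← s1, ← s2]
        simp only [vx, ← hφd, g1, g2, Complex.add_im, Complex.real_smul, Complex.mul_im,
          Complex.ofReal_re, Complex.ofReal_im, Real.sin_sub, Real.sin_add, zero_mul, add_zero]
        ring
    rw [hz3]
    have h3 := hconv.sum_mem (t := (Finset.univ : Finset (Fin 3))) (w := ![a, b, 1 - a - b])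
      (z := ![vx n k, vx n (k + 1), 0]) (by
        intro i _
        fin_cases i
        · exact ha0
        · exact hb0
        · show 0 ≤ 1 - a - b
          linarith) (by
        rw [Fin.sum_univ_three]
        show a + b + (1 - a - b) = 1
        ring) (by
        intro i _
        fin_cases i
        · exact hv k
        · exact hv (k + 1)
        · exact h0)
    rw [Fin.sum_univ_three] at h3
    exact h3

end Pool.Agent.helper56.Dod
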