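import Pool.Agent.helper56.Dod.Tile
import Pool.Agent.helper56.Dod.Hull

/-!
Every regular dodecagon is a similar copy of the dodecagon of side `4`; the final statement.
-/

set_option autoImplicit false

namespace Pool.Agent.helper56.Dod

open Set
open Pool.Agent.helper15.Hexagon (regularPolygon RectifiableBoundary CongruentDissection)

theorem cos_pos12 : 0 < Real.cos (Real.pi / (12 : ℕ)) := by
  have hp := Real.pi_pos
  apply Real.cos_pos_of_mem_Ioo
  push_cast
  constructor <;> linarith

/-- the radius of the circumscribed circle -/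
noncomputable def R0 : ℝ := (4 + 2 * √3) / Real.cos (Real.pi / (12 : ℕ))

theorem R0_pos : 0 < R0 := div_pos (by have := Q.s3_pos; linarith) cos_pos12

/-- a vertex of the dodecagon of side `4` -/
noncomputable def w0 : ℂ :=
  ⟨R0 * Real.sin (Real.pi / (12 : ℕ)), R0 * Real.cos (Real.pi / (12 : ℕ))⟩

theorem w0_ne : w0 ≠ 0 := by
  intro h
  have := congrArg Complex.im h
  simp only [w0, Complex.zero_im] at this
  exact (mul_pos R0_pos cos_pos12).ne' this

theorem F_w0 (k : ℕ) (u : ℂ) : F k (w0 * u) = 2 * R0 * ht 12 (k : ℤ) u := by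
  have e : (2 * (((k : ℕ) : ℤ) : ℝ) + 1) * (Real.pi / (12 : ℕ)) =
      k * al + Real.pi / (12 : ℕ) := by
    unfold al; push_cast; ring
  unfold F D
  rw [ht, e, Real.cos_add, Real.sin_add, Complex.mul_re, Complex.mul_im, sin_al]
  simp only [w0]
  ring

theorem hull_eq : convexHull ℝ (Set.range fun k : Fin 12 => w0 * vx 12 k) = boxO.set := by
  have h1 : convexHull ℝ (Set.range fun k : Fin 12 => w0 * vx 12 k) =
      (fun z => w0 * z) '' convexHull ℝ (Set.range fun k : Fin 12 => vx 12 k) := by
    have h2 := AffineMap.image_convexHull (LinearMap.mulLeft ℝ w0).toAffineMap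
      (Set.range fun k : Fin 12 => vx 12 k)
    rw [← Set.range_comp] at h2
    exact h2.symm
  rw [h1, hull_halfplanes 12 (by norm_num)]
  have hR := R0_pos
  have hc := cos_pos12
  have key : ∀ u : ℂ, w0 * u ∈ boxO.set ↔
      ∀ k : ℕ, k < 12 → ht 12 (k : ℤ) u ≤ Real.cos (Real.pi / (12 : ℕ)) := by
    intro u
    have h3 : ∀ k : ℕ, k < 12 → (F k (w0 * u) ≤ (Box.u boxO k).val ↔
        ht 12 (k : ℤ) u ≤ Real.cos (Real.pi / (12 : ℕ))) := by
      intro k hk
      rw [boxO, mk_u _ _ hk, F_w0]
      have e : (⟨8, 4⟩ : Q).val = 2 * R0 * Real.cos (Real.pi / (12 : ℕ)) := by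
        unfold Q.val R0
        rw [mul_assoc, div_mul_cancel₀ _ hc.ne']
        push_cast
        ring
      rw [e]
      exact mul_le_mul_iff_right₀ (by positivity)
    constructor
    · intro h k hk; exact (h3 k hk).1 (h k hk)
    · intro h k hk; exact (h3 k hk).2 (h k hk)
  ext z
  constructor
  · rintro ⟨u, hu, rfl⟩
    exact (key u).2 hu
  · intro hz
    refine ⟨z / w0, ?_, mul_div_cancel₀ z w0_ne⟩
    have : w0 * (z / w0) ∈ boxO.set := by rwa [mul_div_cancel₀ z w0_ne]
    exact (key _).1 this

/-- the similarity carrying the dodecagon of side `4` to the given one -/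
noncomputable def simAff (c v : ℂ) : ℂ →ᵃ[ℝ] ℂ :=
  (LinearMap.mulLeft ℝ (v / w0)).toAffineMap + AffineMap.const ℝ ℂ c

theorem simAff_apply (c v z : ℂ) : simAff c v z = c + v / w0 * z := by
  simp [simAff, add_comm]

noncomputable def sim (c v : ℂ) (hv : v ≠ 0) : ℂ ≃ₜ ℂ :=
  (Homeomorph.mulLeft₀ (v / w0) (div_ne_zero hv w0_ne)).trans (Homeomorph.addLeft c)

theorem sim_apply (c v : ℂ) (hv : v ≠ 0) (z : ℂ) : sim c v hv z = c + v / w0 * z := rfl

theorem polygon_eq (c v : ℂ) (hv : v ≠ 0) :
    regularPolygon 12 c v = sim c v hv '' boxO.set := by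
  have h1 : (sim c v hv : ℂ → ℂ) = simAff c v := by
    funext z; rw [simAff_apply]; rfl
  rw [h1, ← hull_eq, AffineMap.image_convexHull, regularPolygon, ← Set.range_comp]
  congr 2
  funext k
  rw [Function.comp_apply, simAff_apply, exp_eq_vx]
  have := w0_ne
  field_simp

theorem sim_dist (c v : ℂ) (hv : v ≠ 0) (x y : ℂ) :
    dist (sim c v hv x) (sim c v hv y) = ‖v / w0‖ * dist x y := by
  rw [sim_apply, sim_apply, dist_add_left, Complex.dist_eq, Complex.dist_eq, ← mul_sub, norm_mul]

theorem main (c v : ℂ) (hv : v ≠ 0) :
    ∃ P : Fin 48 → Set ℂ, CongruentDissection (regularPolygon 12 c v) 48 P ∧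
      c ∈ interior (P 0) ∧ ∀ i, ∃ z ∈ interior (P i), StarConvex ℝ z (P i) := by
  choose g hgW hgT using exists_g
  have hg : ∀ i, g i '' tile = piece i := by
    intro i
    rw [tile, image_union, hgW, hgT]; rfl
  set s := sim c v hv with hs
  have hpos : 0 < ‖v / w0‖ := norm_pos_iff.2 (div_ne_zero hv w0_ne)
  -- the homeomorphism carrying the prototile to the piece
  have hP : ∀ i, s '' piece i = ((g i).toHomeomorph.trans s) '' tile := by
    intro i
    rw [← hg i, image_image]; rfl
  refine ⟨fun i => s '' piece i, ?_, ?_, ?_⟩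
  · refine ⟨by norm_num, ?_, ?_, ?_, ?_, ?_, ?_⟩
    · intro i
      exact (((pW i).isCompact.union (pT i).isCompact)).image s.continuous
    · intro i
      show closure (interior (s '' piece i)) = s '' piece i
      rw [hP i, ← Homeomorph.image_interior, ← Homeomorph.image_closure, closure_interior_tile]
    · intro i
      show RectifiableBoundary (s '' piece i)
      rw [hP i]
      set φ := (g i).toHomeomorph.trans s with hφ
      have hφd : ∀ x y, dist (φ x) (φ y) = ‖v / w0‖ * dist x y := by
        intro x y
        show dist (s (g i x)) (s (g i y)) = _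
        rw [hs, sim_dist, (g i).dist_eq]
      refine ⟨5, fun k t => φ (side k t), ?_, ?_⟩
      · intro k
        refine ⟨(φ.continuous.comp (side_continuous k)).continuousOn,
          (φ.injective.comp (side_inj k)).injOn, ?_⟩
        have hL : LipschitzWith ‖v / w0‖₊ φ :=
          LipschitzWith.of_dist_le_mul fun x y => (hφd x y).le
        exact hL.comp_boundedVariationOn (side_bv k)
      · rw [← Homeomorph.image_frontier, frontier_tile_sides, image_iUnion]
        congr 1
        funext k
        rw [image_image]
    · show ⋃ i, s '' piece i = regularPolygon 12 c v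
      rw [← image_iUnion, cover, polygon_eq c v hv]
    · intro i j hij
      show Disjoint (interior (s '' piece i)) (interior (s '' piece j))
      rw [← Homeomorph.image_interior, ← Homeomorph.image_interior,
        disjoint_image_iff s.injective]
      exact disj i j hij
    · intro i j
      set e : ℂ ≃ᵢ ℂ := (g i).symm.trans (g j) with he
      have he' : e '' piece i = piece j := by
        rw [← hg i, ← hg j, image_image]
        apply image_congr
        intro x _
        show g j ((g i).symm (g i x)) = g j x
        rw [(g i).symm_apply_apply]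
      have hiso : Isometry (fun z => s (e (s.symm z))) := by
        apply Isometry.of_dist_eq
        intro x y
        have h1 := sim_dist c v hv (s.symm x) (s.symm y)
        rw [← hs, s.apply_symm_apply, s.apply_symm_apply] at h1
        show dist (s (e (s.symm x))) (s (e (s.symm y))) = dist x y
        rw [hs, sim_dist, ← hs, e.dist_eq, ← h1]
      refine ⟨IsometryEquiv.mk (s.symm.toEquiv.trans (e.toEquiv.trans s.toEquiv)) hiso, ?_⟩
      show (fun z => s (e (s.symm z))) '' (s '' piece i) = s '' piece j
      rw [image_image, ← he', image_image]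
      apply image_congr
      intro x _
      rw [s.symm_apply_apply]
  · show c ∈ interior (s '' piece 0)
    rw [← Homeomorph.image_interior]
    exact ⟨0, zero_mem, by rw [hs, sim_apply]; simp⟩
  · intro i
    refine ⟨s (g i mid), ?_, ?_⟩
    · show s (g i mid) ∈ interior (s '' piece i)
      rw [← Homeomorph.image_interior]
      refine ⟨_, ?_, rfl⟩
      rw [← hg i]
      have h : (g i).toHomeomorph '' interior tile = interior (g i '' tile) :=
        Homeomorph.image_interior _ _
      rw [← h]
      exact ⟨_, interior_mono subset_union_left mid_mem_W, rfl⟩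
    · have hst : StarConvex ℝ (g i mid) (piece i) := by
        apply StarConvex.union
        · apply (pW i).convex.starConvex
          rw [← hgW i]
          exact ⟨_, interior_subset mid_mem_W, rfl⟩
        · apply (pT i).convex.starConvex
          rw [← hgT i]
          exact ⟨_, interior_subset mid_mem_T, rfl⟩
      rintro _ ⟨y, hy, rfl⟩ a b ha hb hab
      refine ⟨a • g i mid + b • y, hst hy ha hb hab, ?_⟩
      rw [hs, sim_apply, sim_apply, sim_apply]
      simp only [Complex.real_smul]
      have hab' : (a : ℂ) + b = 1 := by exact_mod_cast hab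
      linear_combination (-c) * hab'

end Pool.Agent.helper56.Dod
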