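import Pool.Agent.helper56.Dod.Coord

/-!
Isometries of the plane generated by the rotation by `π / 6`, the reflection in the real axis
and translations, acting on regions.
-/

set_option autoImplicit false

namespace Pool.Agent.helper56.Dod

open Set

def rotB (B : Box) : Box := mk fun k => B.u ((k + 11) % 12)
def conjB (B : Box) : Box := mk fun k => B.u ((18 - k) % 12)
/-- the values of the functionals at the point `2 (a + b ω + c ω ^ 2 + d ω ^ 3)` -/
def sh (a b c d : ℤ) (k : ℕ) : Q :=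
  ⟨2 * a, 0⟩ * sn ((12 - k) % 12) + ⟨2 * b, 0⟩ * sn ((1 + (12 - k)) % 12) +
    ⟨2 * c, 0⟩ * sn ((2 + (12 - k)) % 12) + ⟨2 * d, 0⟩ * sn ((3 + (12 - k)) % 12)
def trB (a b c d : ℤ) (B : Box) : Box := mk fun k => B.u k + sh a b c d k

/-- an isometry acting on boxes in a prescribed way -/
def Acts (g : ℂ ≃ᵢ ℂ) (T : Box → Box) : Prop := ∀ B : Box, g '' B.set = (T B).set

theorem Acts.of_mem {g : ℂ ≃ᵢ ℂ} {T : Box → Box} (h : ∀ B z, g z ∈ (T B).set ↔ z ∈ B.set) :
    Acts g T := by
  intro B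
  ext w
  constructor
  · rintro ⟨z, hz, rfl⟩
    exact (h B z).2 hz
  · intro hw
    refine ⟨g.symm w, ?_, g.apply_symm_apply w⟩
    rw [← h B, g.apply_symm_apply]; exact hw

theorem Acts.comp {g g' : ℂ ≃ᵢ ℂ} {T T' : Box → Box} (h : Acts g T) (h' : Acts g' T') :
    Acts (g.trans g') (T' ∘ T) := by
  intro B
  have e : (g.trans g') '' B.set = g' '' (g '' B.set) := by
    rw [image_image]; rfl
  rw [e, h B, h' (T B)]; rfl

/-- the primitive twelfth root of unity -/
noncomputable def om : ℂ := ⟨Real.cos al, Real.sin al⟩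

theorem om_norm : ‖om‖ = 1 := by
  have h : ‖om‖ ^ 2 = 1 := by
    rw [← Complex.normSq_eq_norm_sq, Complex.normSq_apply]
    simp only [om]
    have := Real.sin_sq_add_cos_sq al
    nlinarith
  have h0 : 0 ≤ ‖om‖ := norm_nonneg _
  nlinarith

theorem om_ne : om ≠ 0 := by
  intro h
  have := om_norm
  rw [h, norm_zero] at this
  exact zero_ne_one this

theorem F_succ_om (k : ℕ) (z : ℂ) : F (k + 1) (om * z) = F k z := by
  unfold F D
  congr 1
  rw [show ((k + 1 : ℕ) : ℝ) * al = k * al + al by push_cast; ring, Real.cos_add, Real.sin_add,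
    Complex.mul_re, Complex.mul_im]
  simp only [om]
  linear_combination (z.im * Real.cos (k * al) - z.re * Real.sin (k * al)) *
    (Real.sin_sq_add_cos_sq al)

theorem F_om (k : ℕ) (z : ℂ) : F k (om * z) = F ((k + 11) % 12) z := by
  rw [F_mod, ← F_succ_om (k + 11) z, show k + 11 + 1 = k + 12 by ring, F_add_twelve]

theorem F_conj (k : ℕ) (hk : k < 12) (z : ℂ) :
    F k (starRingEnd ℂ z) = F ((18 - k) % 12) z := by
  rw [F_mod]
  have h1 : F (18 - k) z = D (-(k * al)) z * -1 := by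
    have : F (18 - k) z = D (-(k * al) + Real.pi + Real.pi + Real.pi) z := by
      unfold F
      congr 1
      rw [Nat.cast_sub (by omega)]
      have := six_al
      push_cast
      linarith
    rw [this, D_add_pi, D_add_pi, D_add_pi]
    ring
  rw [h1]
  unfold F D
  rw [Real.cos_neg, Real.sin_neg]
  simp only [Complex.conj_re, Complex.conj_im]
  ring

theorem F_add (k : ℕ) (z w : ℂ) : F k (z + w) = F k z + F k w := by
  rw [← Fl_apply, ← Fl_apply, ← Fl_apply, map_add]

theorem exists_rot : ∃ g : ℂ ≃ᵢ ℂ, Acts g rotB := by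
  let e : ℂ ≃ ℂ := Equiv.mulLeft₀ om om_ne
  have he : Isometry e := by
    apply Isometry.of_dist_eq
    intro x y
    show dist (om * x) (om * y) = dist x y
    rw [Complex.dist_eq, Complex.dist_eq, ← mul_sub, norm_mul, om_norm, one_mul]
  refine ⟨⟨e, he⟩, Acts.of_mem ?_⟩
  intro B z
  have h1 : (⟨e, he⟩ : ℂ ≃ᵢ ℂ) z = om * z := rfl
  rw [h1]
  constructor
  · intro h k hk
    have h2 := h ((k + 1) % 12) (Nat.mod_lt _ (by norm_num))
    rw [rotB, mk_u _ _ (Nat.mod_lt _ (by norm_num)), F_om,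
      show ((k + 1) % 12 + 11) % 12 = k by omega] at h2
    exact h2
  · intro h k hk
    rw [rotB, mk_u _ _ hk, F_om]
    exact h _ (Nat.mod_lt _ (by norm_num))

theorem exists_conj : ∃ g : ℂ ≃ᵢ ℂ, Acts g conjB := by
  refine ⟨Complex.conjLIE.toIsometryEquiv, Acts.of_mem ?_⟩
  intro B z
  have h1 : Complex.conjLIE.toIsometryEquiv z = starRingEnd ℂ z := rfl
  rw [h1]
  constructor
  · intro h k hk
    have h2 := h ((18 - k) % 12) (Nat.mod_lt _ (by norm_num))
    rw [conjB, mk_u _ _ (Nat.mod_lt _ (by norm_num)), F_conj _ (Nat.mod_lt _ (by norm_num)),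
      show (18 - (18 - k) % 12) % 12 = k by omega] at h2
    exact h2
  · intro h k hk
    rw [conjB, mk_u _ _ hk, F_conj _ hk]
    exact h _ (Nat.mod_lt _ (by norm_num))

/-- the point `2 (a + b ω + c ω ^ 2 + d ω ^ 3)` -/
noncomputable def pt (a b c d : ℤ) : ℂ :=
  ⟨2 * a * Real.cos ((0 : ℕ) * al) + 2 * b * Real.cos ((1 : ℕ) * al) +
      2 * c * Real.cos ((2 : ℕ) * al) + 2 * d * Real.cos ((3 : ℕ) * al),
    2 * a * Real.sin ((0 : ℕ) * al) + 2 * b * Real.sin ((1 : ℕ) * al) +
      2 * c * Real.sin ((2 : ℕ) * al) + 2 * d * Real.sin ((3 : ℕ) * al)⟩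

theorem sn_sub (i k : ℕ) (hk : k < 12) : (sn ((i + (12 - k)) % 12)).val * Real.sin al =
    Real.sin (i * al) * Real.cos (k * al) - Real.cos (i * al) * Real.sin (k * al) := by
  rw [sn_val _ (Nat.mod_lt _ (by norm_num)), ← Real.sin_sub]
  have hm : ∀ j : ℕ, Real.sin ((j % 12 : ℕ) * al) = Real.sin (j * al) := by
    intro j
    conv_rhs => rw [← Nat.mod_add_div j 12]
    have : (((j % 12 + 12 * (j / 12) : ℕ)) : ℝ) * al =
        ((j % 12 : ℕ) : ℝ) * al + (j / 12 : ℕ) * (2 * Real.pi) := by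
      have := six_al
      rw [Nat.cast_add, Nat.cast_mul]
      push_cast
      linear_combination (2 * ((j / 12 : ℕ) : ℝ)) * this
    rw [this, Real.sin_add_nat_mul_two_pi]
  rw [hm]
  have : ((i + (12 - k) : ℕ) : ℝ) * al = (i * al - k * al) + 2 * Real.pi := by
    rw [Nat.cast_add, Nat.cast_sub hk.le]
    have := six_al
    push_cast
    linear_combination (2 : ℝ) * this
  rw [this, Real.sin_add_two_pi]

theorem F_pt (a b c d : ℤ) (k : ℕ) (hk : k < 12) : F k (pt a b c d) = (sh a b c d k).val := by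
  have hs := sin_al_pos.ne'
  have h0 := sn_sub 0 k hk
  have h1 := sn_sub 1 k hk
  have h2 := sn_sub 2 k hk
  have h3 := sn_sub 3 k hk
  rw [zero_add] at h0
  have hv : ∀ n : ℤ, (⟨2 * n, 0⟩ : Q).val = 2 * n := by
    intro n; unfold Q.val; push_cast; ring
  unfold F D
  rw [div_eq_iff hs]
  simp only [sh, Q.val_add, Q.val_mul, hv, pt]
  linear_combination (-2 * (a : ℝ)) * h0 - (2 * (b : ℝ)) * h1 - (2 * (c : ℝ)) * h2 -
    (2 * (d : ℝ)) * h3

theorem exists_tr (a b c d : ℤ) : ∃ g : ℂ ≃ᵢ ℂ, Acts g (trB a b c d) := by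
  refine ⟨IsometryEquiv.addRight (pt a b c d), Acts.of_mem ?_⟩
  intro B z
  have h1 : IsometryEquiv.addRight (pt a b c d) z = z + pt a b c d := rfl
  rw [h1]
  constructor
  · intro h k hk
    have h2 := h k hk
    rw [trB, mk_u _ _ hk, F_add, F_pt _ _ _ _ _ hk, Q.val_add] at h2
    linarith
  · intro h k hk
    have h2 := h k hk
    rw [trB, mk_u _ _ hk, F_add, F_pt _ _ _ _ _ hk, Q.val_add]
    linarith

theorem exists_rots (n : ℕ) : ∃ g : ℂ ≃ᵢ ℂ, Acts g (rotB^[n]) := by
  induction n with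
  | zero => exact ⟨IsometryEquiv.refl ℂ, fun B => image_id _⟩
  | succ n ih =>
    obtain ⟨g, hg⟩ := ih
    obtain ⟨g', hg'⟩ := exists_rot
    refine ⟨g'.trans g, ?_⟩
    have := hg'.comp hg
    rwa [← Function.iterate_succ] at this

/-- the code of an isometry: reflect if `f`, rotate `n` times, translate by
`2 (a + b ω + c ω ^ 2 + d ω ^ 3)` -/
structure Code where
  f : Bool
  n : ℕ
  a : ℤ
  b : ℤ
  c : ℤ
  d : ℤ

def Code.act (s : Code) (B : Box) : Box :=
  trB s.a s.b s.c s.d (rotB^[s.n] (if s.f then conjB B else B))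

theorem Code.exists_acts (s : Code) : ∃ g : ℂ ≃ᵢ ℂ, Acts g s.act := by
  obtain ⟨g1, h1⟩ := exists_tr s.a s.b s.c s.d
  obtain ⟨g2, h2⟩ := exists_rots s.n
  by_cases hf : s.f
  · obtain ⟨g3, h3⟩ := exists_conj
    refine ⟨(g3.trans g2).trans g1, ?_⟩
    have := (h3.comp h2).comp h1
    intro B
    rw [this B, Code.act, if_pos hf]; rfl
  · refine ⟨g2.trans g1, ?_⟩
    have := h2.comp h1
    intro B
    rw [this B, Code.act, if_neg hf]; rfl

/-! ### lists of pieces -/

/-- no two of the regions of the two pairs overlap -/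
def sep4 (p q : Box × Box) : Bool :=
  (sep p.1 q.1 && sep p.1 q.2) && (sep p.2 q.1 && sep p.2 q.2)

def sepAll : List (Box × Box) → Bool
  | [] => true
  | p :: l => l.all (sep4 p) && sepAll l

theorem sepAll_spec (e : Box × Box) : ∀ l : List (Box × Box), sepAll l = true →
    ∀ i j, i < j → j < l.length → sep4 (l.getD i e) (l.getD j e) = true := by
  intro l
  induction l with
  | nil => intro _ i j _ hj; simp at hj
  | cons p l ih =>
    intro h i j hij hj
    rw [sepAll, Bool.and_eq_true] at h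
    obtain ⟨j, rfl⟩ : ∃ j', j = j' + 1 := ⟨j - 1, by omega⟩
    have hj' : j < l.length := by simpa using hj
    cases i with
    | zero =>
      rw [List.getD_cons_zero, List.getD_cons_succ]
      have h1 := List.all_eq_true.1 h.1
      apply h1
      rw [List.getD_eq_getElem _ _ hj']
      exact List.getElem_mem hj'
    | succ i =>
      rw [List.getD_cons_succ, List.getD_cons_succ]
      exact ih h.2 i j (by omega) hj'

end Pool.Agent.helper56.Dod
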