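import Pool.Agent.helper56.Dod.Data

/-!
Topology of the prototile, and the dissection of the dodecagon of side `4`.
-/

set_option autoImplicit false

namespace Pool.Agent.helper56.Dod

open Set

theorem s_lo : (1.732 : ℝ) < √3 := by
  apply Real.lt_sqrt_of_sq_lt; norm_num

theorem s_hi : √3 < (1.7321 : ℝ) := by
  rw [Real.sqrt_lt' (by norm_num)]; norm_num

theorem F_rec (k : ℕ) (z : ℂ) : F (k + 2) z = √3 * F (k + 1) z - F k z := by
  have e1 : ((k + 2 : ℕ) : ℝ) * al = ((k + 1 : ℕ) : ℝ) * al + al := by push_cast; ring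
  have e2 : ((k : ℕ) : ℝ) * al = ((k + 1 : ℕ) : ℝ) * al - al := by push_cast; ring
  unfold F D
  rw [e1, e2, Real.cos_add, Real.sin_add, Real.cos_sub, Real.sin_sub, sin_al, cos_al]
  ring

theorem F_table (z : ℂ) : F 0 z = 2 * z.im ∧ F 1 z = √3 * z.im - z.re ∧
    F 2 z = z.im - √3 * z.re ∧ F 3 z = -(2 * z.re) ∧ F 4 z = -z.im - √3 * z.re ∧
    F 5 z = -(√3 * z.im) - z.re ∧ F 6 z = -(2 * z.im) ∧ F 7 z = z.re - √3 * z.im ∧
    F 8 z = √3 * z.re - z.im ∧ F 9 z = 2 * z.re ∧ F 10 z = z.im + √3 * z.re ∧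
    F 11 z = √3 * z.im + z.re := by
  have hs := Q.s3_sq
  have h0 : F 0 z = 2 * z.im := F0_eq z
  have h1 : F 1 z = √3 * z.im - z.re := by
    unfold F D
    rw [Nat.cast_one, one_mul, sin_al, cos_al]
    ring
  have h2 : F 2 z = z.im - √3 * z.re := by
    have := F_rec 0 z
    rw [this, h0, zero_add, h1]
    linear_combination z.im * hs
  have h3 : F 3 z = -(2 * z.re) := by
    have := F_rec 1 z
    rw [this, h1, h2]
    linear_combination (-z.re) * hs
  have h4 : F 4 z = -z.im - √3 * z.re := by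
    have := F_rec 2 z
    rw [this, h2, h3]; ring
  have h5 : F 5 z = -(√3 * z.im) - z.re := by
    have := F_rec 3 z
    rw [this, h3, h4]
    linear_combination (-z.re) * hs
  refine ⟨h0, h1, h2, h3, h4, h5, ?_, ?_, ?_, ?_, ?_, ?_⟩
  · rw [F_add_six 0, h0]
  · rw [F_add_six 1, h1]; ring
  · rw [F_add_six 2, h2]; ring
  · rw [F_add_six 3, h3]; ring
  · rw [F_add_six 4, h4]; ring
  · rw [F_add_six 5, h5]; ring

theorem forall_12 (P : ℕ → Prop) : (∀ k < 12, P k) ↔
    (P 0 ∧ P 1 ∧ P 2 ∧ P 3 ∧ P 4 ∧ P 5) ∧ (P 6 ∧ P 7 ∧ P 8 ∧ P 9 ∧ P 10 ∧ P 11) := by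
  constructor
  · intro h
    exact ⟨⟨h 0 (by norm_num), h 1 (by norm_num), h 2 (by norm_num), h 3 (by norm_num),
      h 4 (by norm_num), h 5 (by norm_num)⟩, ⟨h 6 (by norm_num), h 7 (by norm_num),
      h 8 (by norm_num), h 9 (by norm_num), h 10 (by norm_num), h 11 (by norm_num)⟩⟩
  · rintro ⟨⟨a0, a1, a2, a3, a4, a5⟩, ⟨a6, a7, a8, a9, a10, a11⟩⟩ k hk
    interval_cases k <;> assumption

theorem mem_boxW (z : ℂ) : z ∈ boxW.set ↔
    0 ≤ z.im ∧ z.im ≤ 1 ∧ √3 * z.im ≤ z.re ∧ z.re ≤ 2 + √3 := by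
  have s1 := s_lo
  have s2 := s_hi
  have hs := Q.s3_sq
  have hp := Q.s3_pos
  obtain ⟨f0, f1, f2, f3, f4, f5, f6, f7, f8, f9, f10, f11⟩ := F_table z
  rw [Box.set, mem_ofPred_eq, forall_12]
  rw [f0, f1, f2, f3, f4, f5, f6, f7, f8, f9, f10, f11]
  simp only [boxW, Box.u, List.getD_cons_zero, List.getD_cons_succ, Q.val]
  push_cast
  constructor
  · rintro ⟨⟨a0, a1, a2, a3, a4, a5⟩, ⟨a6, a7, a8, a9, a10, a11⟩⟩
    exact ⟨by linarith, by linarith, by linarith, by linarith⟩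
  · rintro ⟨h1, h2, h3, h4⟩
    have p1 : 0 ≤ √3 * z.im := by positivity
    have p2 : 0 ≤ √3 * (1 - z.im) := mul_nonneg hp.le (by linarith)
    have p3 : 0 ≤ √3 * (z.re - √3 * z.im) := mul_nonneg hp.le (by linarith)
    have p4 : 0 ≤ √3 * (2 + √3 - z.re) := mul_nonneg hp.le (by linarith)
    have e : √3 * (√3 * z.im) = 3 * z.im := by rw [← mul_assoc, hs]
    have p3' : √3 * (z.re - √3 * z.im) = √3 * z.re - 3 * z.im := by rw [mul_sub, e]
    have p4' : √3 * (2 + √3 - z.re) = 2 * √3 + 3 - √3 * z.re := by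
      linear_combination hs
    rw [p3'] at p3
    rw [p4'] at p4
    refine ⟨⟨?_, ?_, ?_, ?_, ?_, ?_⟩, ⟨?_, ?_, ?_, ?_, ?_, ?_⟩⟩ <;> linarith

theorem mem_boxT (z : ℂ) : z ∈ boxT.set ↔
    √3 * z.im ≤ z.re - 2 ∧ -(√3 * z.im) ≤ z.re - 2 ∧ z.re ≤ 2 + √3 := by
  have s1 := s_lo
  have s2 := s_hi
  have hs := Q.s3_sq
  have hp := Q.s3_pos
  obtain ⟨f0, f1, f2, f3, f4, f5, f6, f7, f8, f9, f10, f11⟩ := F_table z
  rw [Box.set, mem_ofPred_eq, forall_12]
  rw [f0, f1, f2, f3, f4, f5, f6, f7, f8, f9, f10, f11]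
  simp only [boxT, Box.u, List.getD_cons_zero, List.getD_cons_succ, Q.val]
  push_cast
  constructor
  · rintro ⟨⟨a0, a1, a2, a3, a4, a5⟩, ⟨a6, a7, a8, a9, a10, a11⟩⟩
    exact ⟨by linarith, by linarith, by linarith⟩
  · rintro ⟨h1, h2, h3⟩
    have e : √3 * (√3 * z.im) = 3 * z.im := by rw [← mul_assoc, hs]
    have p1 : 0 ≤ √3 * (z.re - 2 - √3 * z.im) := mul_nonneg hp.le (by linarith)
    have p2 : 0 ≤ √3 * (z.re - 2 + √3 * z.im) := mul_nonneg hp.le (by linarith)
    have p3 : 0 ≤ √3 * (2 + √3 - z.re) := mul_nonneg hp.le (by linarith)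
    have p1' : √3 * (z.re - 2 - √3 * z.im) = √3 * z.re - 2 * √3 - 3 * z.im := by
      linear_combination (-z.im) * hs
    have p2' : √3 * (z.re - 2 + √3 * z.im) = √3 * z.re - 2 * √3 + 3 * z.im := by
      linear_combination z.im * hs
    have p3' : √3 * (2 + √3 - z.re) = 2 * √3 + 3 - √3 * z.re := by
      linear_combination hs
    rw [p1'] at p1
    rw [p2'] at p2
    rw [p3'] at p3
    refine ⟨⟨?_, ?_, ?_, ?_, ?_, ?_⟩, ⟨?_, ?_, ?_, ?_, ?_, ?_⟩⟩ <;> linarith

/-- the prototile, a nonconvex pentagon with all sides `2` -/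
def tile : Set ℂ := boxW.set ∪ boxT.set

theorem tile_eq : tile = {z | √3 * z.im ≤ z.re ∧ z.im ≤ 1 ∧ z.re ≤ 2 + √3 ∧
    (0 ≤ z.im ∨ -(√3 * z.im) ≤ z.re - 2)} := by
  have s1 := s_lo
  have s2 := s_hi
  have hs := Q.s3_sq
  have hp := Q.s3_pos
  ext z
  rw [tile, mem_union, mem_boxW, mem_boxT]
  simp only [mem_ofPred_eq]
  constructor
  · rintro (⟨h1, h2, h3, h4⟩ | ⟨h1, h2, h3⟩)
    · exact ⟨h3, h2, h4, Or.inl h1⟩
    · refine ⟨by linarith, ?_, h3, Or.inr h2⟩
      by_contra hcon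
      push Not at hcon
      have : √3 * 1 < √3 * z.im := mul_lt_mul_of_pos_left hcon hp
      linarith
  · rintro ⟨a1, a2, a3, a4⟩
    by_cases hy : 0 ≤ z.im
    · exact Or.inl ⟨hy, a2, a1, a3⟩
    · right
      rcases a4 with a4 | a4
      · exact absurd a4 hy
      · have : √3 * z.im ≤ 0 := by
          have := mul_nonneg hp.le (by linarith : 0 ≤ -z.im)
          linarith
        exact ⟨by linarith, a4, a3⟩

theorem tile_closed : IsClosed tile := boxW.isClosed.union boxT.isClosed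
theorem tile_compact : IsCompact tile := boxW.isCompact.union boxT.isCompact

/-- a point interior to both convex parts -/
noncomputable def mid : ℂ := ⟨3, 1 / 5⟩

theorem mid_mem_W : mid ∈ interior boxW.set := by
  have s1 := s_lo
  have s2 := s_hi
  apply Box.mem_interior
  obtain ⟨f0, f1, f2, f3, f4, f5, f6, f7, f8, f9, f10, f11⟩ := F_table mid
  rw [forall_12 (fun k => F k mid < (Box.u boxW k).val)]
  rw [f0, f1, f2, f3, f4, f5, f6, f7, f8, f9, f10, f11]
  simp only [boxW, Box.u, List.getD_cons_zero, List.getD_cons_succ, Q.val, mid]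
  push_cast
  refine ⟨⟨?_, ?_, ?_, ?_, ?_, ?_⟩, ⟨?_, ?_, ?_, ?_, ?_, ?_⟩⟩ <;> linarith

theorem mid_mem_T : mid ∈ interior boxT.set := by
  have s1 := s_lo
  have s2 := s_hi
  apply Box.mem_interior
  obtain ⟨f0, f1, f2, f3, f4, f5, f6, f7, f8, f9, f10, f11⟩ := F_table mid
  rw [forall_12 (fun k => F k mid < (Box.u boxT k).val)]
  rw [f0, f1, f2, f3, f4, f5, f6, f7, f8, f9, f10, f11]
  simp only [boxT, Box.u, List.getD_cons_zero, List.getD_cons_succ, Q.val, mid]
  push_cast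
  refine ⟨⟨?_, ?_, ?_, ?_, ?_, ?_⟩, ⟨?_, ?_, ?_, ?_, ?_, ?_⟩⟩ <;> linarith

theorem closure_interior_tile : closure (interior tile) = tile := by
  apply Subset.antisymm
  · exact (closure_mono interior_subset).trans tile_closed.closure_eq.subset
  · apply union_subset
    · conv_lhs => rw [← boxW.closure_interior ⟨_, mid_mem_W⟩]
      exact closure_mono (interior_mono subset_union_left)
    · conv_lhs => rw [← boxT.closure_interior ⟨_, mid_mem_T⟩]
      exact closure_mono (interior_mono subset_union_right)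

theorem interior_tile : interior tile =
    {z | √3 * z.im < z.re ∧ z.im < 1 ∧ z.re < 2 + √3 ∧
      (0 < z.im ∨ -(√3 * z.im) < z.re - 2)} := by
  have hp := Q.s3_pos
  apply Subset.antisymm
  · intro z hz
    have hz' := interior_subset hz
    rw [tile_eq] at hz'
    obtain ⟨a1, a2, a3, a4⟩ := hz'
    have key : ∀ a b : ℝ, ∃ δ : ℝ, 0 < δ ∧ √3 * (z.im + δ * b) ≤ z.re + δ * a ∧
        z.im + δ * b ≤ 1 ∧ z.re + δ * a ≤ 2 + √3 ∧
        (0 ≤ z.im + δ * b ∨ -(√3 * (z.im + δ * b)) ≤ z.re + δ * a - 2) := by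
      intro a b
      obtain ⟨δ, hδ, hm⟩ := exists_pos_of_interior hz ⟨a, b⟩
      rw [tile_eq] at hm
      refine ⟨δ, hδ, ?_⟩
      simpa using hm
    refine ⟨?_, ?_, ?_, ?_⟩
    · obtain ⟨δ, hδ, h1, -⟩ := key (-1) 0
      rw [mul_zero, add_zero] at h1
      linarith
    · obtain ⟨δ, hδ, -, h1, -⟩ := key 0 1
      linarith
    · obtain ⟨δ, hδ, -, -, h1, -⟩ := key 1 0
      linarith
    · by_contra hcon
      push Not at hcon
      obtain ⟨c1, c2⟩ := hcon
      obtain ⟨δ, hδ, -, -, -, h1⟩ := key 0 (-1)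
      have hd : 0 < √3 * δ := mul_pos hp hδ
      have e : √3 * (z.im + δ * -1) = √3 * z.im - √3 * δ := by ring
      rw [e] at h1
      rcases h1 with h1 | h1 <;> linarith
  · intro z hz
    rw [_root_.mem_interior]
    refine ⟨{z | √3 * z.im < z.re} ∩ {z | z.im < 1} ∩ {z | z.re < 2 + √3} ∩
      ({z | 0 < z.im} ∪ {z | -(√3 * z.im) < z.re - 2}), ?_, ?_, ?_⟩
    · rintro w ⟨⟨⟨h1, h2⟩, h3⟩, h4⟩
      rw [tile_eq]
      refine ⟨le_of_lt h1, le_of_lt h2, le_of_lt h3, ?_⟩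
      rcases h4 with h4 | h4
      · exact Or.inl (le_of_lt h4)
      · exact Or.inr (le_of_lt h4)
    · have c1 := Complex.continuous_re
      have c2 := Complex.continuous_im
      have c3 : Continuous fun z : ℂ => √3 * z.im := continuous_const.mul c2
      exact (((isOpen_lt c3 c1).inter (isOpen_lt c2 continuous_const)).inter
        (isOpen_lt c1 continuous_const)).inter
        ((isOpen_lt continuous_const c2).union (isOpen_lt c3.neg (c1.sub continuous_const)))
    · obtain ⟨h1, h2, h3, h4⟩ := hz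
      exact ⟨⟨⟨h1, h2⟩, h3⟩, h4⟩

theorem frontier_tile : frontier tile =
    {z | (√3 * z.im ≤ z.re ∧ z.im ≤ 1 ∧ z.re ≤ 2 + √3 ∧
      (0 ≤ z.im ∨ -(√3 * z.im) ≤ z.re - 2)) ∧
      (√3 * z.im = z.re ∨ z.im = 1 ∨ z.re = 2 + √3 ∨
        (z.im ≤ 0 ∧ z.re - 2 ≤ -(√3 * z.im)))} := by
  rw [tile_closed.frontier_eq, interior_tile]
  ext z
  rw [mem_sdiff, tile_eq]
  simp only [mem_ofPred_eq]
  constructor
  · rintro ⟨⟨a1, a2, a3, a4⟩, h⟩
    refine ⟨⟨a1, a2, a3, a4⟩, ?_⟩
    by_contra hcon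
    push Not at hcon
    obtain ⟨b1, b2, b3, b4⟩ := hcon
    apply h
    refine ⟨lt_of_le_of_ne a1 b1, lt_of_le_of_ne a2 b2, lt_of_le_of_ne a3 b3, ?_⟩
    by_cases hy : z.im ≤ 0
    · exact Or.inr (b4 hy)
    · exact Or.inl (not_le.1 hy)
  · rintro ⟨a, h⟩
    refine ⟨a, ?_⟩
    rintro ⟨b1, b2, b3, b4⟩
    rcases h with h | h | h | ⟨h, h'⟩
    · linarith
    · linarith
    · linarith
    · rcases b4 with b4 | b4 <;> linarith

/-- the five vertices of the prototile -/
noncomputable def vp : Fin 5 → ℝ × ℝ :=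
  ![(0, 0), (2, 0), (2 + √3, -1), (2 + √3, 1), (√3, 1)]

/-- the five side vectors -/
noncomputable def vd : Fin 5 → ℝ × ℝ :=
  ![(2, 0), (√3, -1), (0, 2), (-2, 0), (-√3, -1)]

/-- the five sides -/
noncomputable def side (k : Fin 5) (t : ℝ) : ℂ :=
  ⟨(vp k).1 + t * (vd k).1, (vp k).2 + t * (vd k).2⟩

theorem side_eq (k : Fin 5) (t : ℝ) :
    side k t = (⟨(vp k).1, (vp k).2⟩ : ℂ) + t • (⟨(vd k).1, (vd k).2⟩ : ℂ) := by
  apply Complex.ext <;> simp [side]

theorem side_inj (k : Fin 5) : Function.Injective (side k) := by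
  have hs := Q.s3_pos
  intro s t h
  have hx := congrArg Complex.re h
  have hy := congrArg Complex.im h
  simp only [side] at hx hy
  have aux : ∀ a b : ℝ, a ≠ 0 → b + s * a = b + t * a → s = t := by
    intro a b ha h1
    have h3 : s * a = t * a := by linarith
    exact mul_right_cancel₀ ha h3
  fin_cases k
  · exact aux 2 0 (by norm_num) hx
  · exact aux (-1) 0 (by norm_num) hy
  · exact aux 2 (-1) (by norm_num) hy
  · exact aux (-2) (2 + √3) (by norm_num) hx
  · exact aux (-1) 1 (by norm_num) hy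

theorem side_continuous (k : Fin 5) : Continuous (side k) := by
  have : side k = fun t => (⟨(vp k).1, (vp k).2⟩ : ℂ) + t • (⟨(vd k).1, (vd k).2⟩ : ℂ) :=
    funext (side_eq k)
  rw [this]
  fun_prop

theorem side_bv (k : Fin 5) : BoundedVariationOn (side k) (Icc 0 1) := by
  have hL : LipschitzWith ‖(⟨(vd k).1, (vd k).2⟩ : ℂ)‖₊ (side k) := by
    apply LipschitzWith.of_dist_le_mul
    intro s t
    rw [side_eq, side_eq, dist_add_left, dist_eq_norm, ← sub_smul, norm_smul, coe_nnnorm,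
      Real.dist_eq, Real.norm_eq_abs, mul_comm]
  have h := hL.lipschitzOnWith (s := (univ : Set ℝ))
  have h2 := h.locallyBoundedVariationOn 0 1 (mem_univ _) (mem_univ _)
  rwa [univ_inter] at h2

theorem frontier_tile_sides : frontier tile = ⋃ k, side k '' Icc 0 1 := by
  have s1 := s_lo
  have s2 := s_hi
  have hs := Q.s3_pos
  rw [frontier_tile]
  ext z
  simp only [mem_ofPred_eq, mem_iUnion, mem_image, mem_Icc]
  constructor
  · rintro ⟨⟨a1, a2, a3, a4⟩, h⟩
    have mk : ∀ (k : Fin 5) (t x y dx dy : ℝ), vp k = (x, y) → vd k = (dx, dy) →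
        0 ≤ t → t ≤ 1 → x + t * dx = z.re → y + t * dy = z.im →
        ∃ k : Fin 5, ∃ t, (0 ≤ t ∧ t ≤ 1) ∧ side k t = z := by
      intro k t x y dx dy e1 e2 h0 h1 hx hy
      refine ⟨k, t, ⟨h0, h1⟩, ?_⟩
      rw [side, e1, e2, hx, hy]
    have pos_of : ∀ t : ℝ, 0 ≤ √3 * t → 0 ≤ t := fun t ht => nonneg_of_mul_nonneg_right ht hs
    rcases h with h | h | h | ⟨h, h'⟩
    · -- side 4
      have hy : 0 ≤ z.im := by
        rcases a4 with a4 | a4
        · exact a4
        · apply pos_of; linarith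
      exact mk 4 (1 - z.im) (√3) 1 (-√3) (-1) rfl rfl (by linarith) (by linarith)
        (by rw [← h]; ring) (by ring)
    · -- side 3
      rw [h, mul_one] at a1
      exact mk 3 ((2 + √3 - z.re) / 2) (2 + √3) 1 (-2) 0 rfl rfl (by linarith) (by linarith)
        (by ring) (by linarith)
    · -- side 2
      have hy : 0 ≤ z.im + 1 := by
        rcases a4 with a4 | a4
        · linarith
        · apply pos_of; linarith
      exact mk 2 ((z.im + 1) / 2) (2 + √3) (-1) 0 2 rfl rfl (by linarith) (by linarith)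
        (by linarith) (by ring)
    · rcases a4 with a4 | a4
      · -- side 0
        have hy : z.im = 0 := le_antisymm h a4
        rw [hy, mul_zero] at a1 h'
        exact mk 0 (z.re / 2) 0 0 2 0 rfl rfl (by linarith) (by linarith)
          (by ring) (by linarith)
      · -- side 1
        have hy : 0 ≤ z.im + 1 := by
          apply pos_of; linarith
        exact mk 1 (-z.im) 2 0 (√3) (-1) rfl rfl (by linarith) (by linarith)
          (by linarith) (by ring)
  · rintro ⟨k, t, ⟨h0, h1⟩, rfl⟩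
    have p0 : 0 ≤ t * √3 := mul_nonneg h0 hs.le
    have p1 : t * √3 ≤ √3 := by nlinarith
    have e : ∀ (x y dx dy : ℝ), vp k = (x, y) → vd k = (dx, dy) →
        side k t = ⟨x + t * dx, y + t * dy⟩ := by
      intro x y dx dy e1 e2
      rw [side, e1, e2]
    fin_cases k
    · rw [e 0 0 2 0 rfl rfl]
      simp only
      refine ⟨⟨?_, ?_, ?_, Or.inl ?_⟩, Or.inr (Or.inr (Or.inr ⟨?_, ?_⟩))⟩ <;> linarith
    · rw [e 2 0 (√3) (-1) rfl rfl]
      simp only
      refine ⟨⟨?_, ?_, ?_, Or.inr ?_⟩, Or.inr (Or.inr (Or.inr ⟨?_, ?_⟩))⟩ <;> linarith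
    · rw [e (2 + √3) (-1) 0 2 rfl rfl]
      simp only
      refine ⟨⟨?_, ?_, ?_, Or.inr ?_⟩, Or.inr (Or.inr (Or.inl ?_))⟩ <;> linarith
    · rw [e (2 + √3) 1 (-2) 0 rfl rfl]
      simp only
      refine ⟨⟨?_, ?_, ?_, Or.inl ?_⟩, Or.inr (Or.inl ?_)⟩ <;> linarith
    · rw [e (√3) 1 (-√3) (-1) rfl rfl]
      simp only
      refine ⟨⟨?_, ?_, ?_, Or.inl ?_⟩, Or.inl ?_⟩ <;> linarith

/-! ### the dissection -/

/-- the pieces -/
def piece (i : Fin 48) : Set ℂ := (pW i).set ∪ (pT i).set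

theorem part_sub {i : ℕ} (hi : i < 48) : (pW i).set ⊆ boxO.set ∧ (pT i).set ⊆ boxO.set := by
  have h := List.all_eq_true.1 sub_check (tab.getD i ([], [])) (by
    have hi' : i < tab.length := by rw [tab_length]; exact hi
    rw [List.getD_eq_getElem _ _ hi']
    exact List.getElem_mem hi')
  rw [Bool.and_eq_true] at h
  exact ⟨sub_sound h.1, sub_sound h.2⟩

theorem piece_sub (i : Fin 48) : piece i ⊆ boxO.set :=
  union_subset (part_sub i.2).1 (part_sub i.2).2

theorem cover : ⋃ i, piece i = boxO.set := by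
  apply Subset.antisymm
  · exact iUnion_subset piece_sub
  · intro z hz
    obtain ⟨j, hj, h⟩ := chk_sound part 96 tree boxO cover_check z hz
    have hj2 : j / 2 < 48 := by omega
    rw [part] at h
    rw [mem_iUnion]
    split_ifs at h with hp
    · exact ⟨⟨j / 2, hj2⟩, Or.inl h⟩
    · exact ⟨⟨j / 2, hj2⟩, Or.inr h⟩

theorem interior_union_empty {A B : Set ℂ} (hA : IsClosed A) (h1 : interior A = ∅)
    (h2 : interior B = ∅) : interior (A ∪ B) = ∅ := by
  rw [interior_union_isClosed_of_interior_empty hA h2, h1]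

theorem disj_lt (i j : Fin 48) (hij : i < j) :
    Disjoint (interior (piece i)) (interior (piece j)) := by
  rw [Set.disjoint_iff_inter_eq_empty, ← interior_inter]
  have h := sepAll_spec ([], []) tab sep_check i j hij (by rw [tab_length]; exact j.2)
  rw [sep4, Bool.and_eq_true, Bool.and_eq_true, Bool.and_eq_true] at h
  obtain ⟨⟨c1, c2⟩, ⟨c3, c4⟩⟩ := h
  have e : piece i ∩ piece j = (((pW i).set ∩ (pW j).set) ∪ ((pW i).set ∩ (pT j).set)) ∪
      (((pT i).set ∩ (pW j).set) ∪ ((pT i).set ∩ (pT j).set)) := by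
    rw [piece, piece, union_inter_distrib_right, inter_union_distrib_left,
      inter_union_distrib_left]
  have hcl : ∀ B C : Box, IsClosed (B.set ∩ C.set) := fun B C => B.isClosed.inter C.isClosed
  rw [e]
  apply interior_union_empty ((hcl _ _).union (hcl _ _))
  · exact interior_union_empty (hcl _ _) (interior_inter_of_sep c1) (interior_inter_of_sep c2)
  · exact interior_union_empty (hcl _ _) (interior_inter_of_sep c3) (interior_inter_of_sep c4)

theorem disj (i j : Fin 48) (hij : i ≠ j) :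
    Disjoint (interior (piece i)) (interior (piece j)) := by
  rcases lt_or_gt_of_ne hij with h | h
  · exact disj_lt i j h
  · exact (disj_lt j i h).symm

theorem exists_g (i : Fin 48) : ∃ g : ℂ ≃ᵢ ℂ,
    g '' boxW.set = (pW i).set ∧ g '' boxT.set = (pT i).set := by
  have hl : codes.length = 48 := by
    have := tab_length
    rwa [tab_eq, List.length_map] at this
  have hi : (i : ℕ) < codes.length := by rw [hl]; exact i.2
  obtain ⟨g, hg⟩ := (codes[(i : ℕ)]).exists_acts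
  have e : tab.getD i ([], []) = (Code.act codes[(i : ℕ)] boxW, Code.act codes[(i : ℕ)] boxT) := by
    rw [tab_eq, List.getD_eq_getElem _ _ (by rw [List.length_map]; exact hi), List.getElem_map]
  refine ⟨g, ?_, ?_⟩
  · rw [hg, pW, e]
  · rw [hg, pT, e]

/-- the origin is an interior point of the first piece -/
theorem zero_mem : (0 : ℂ) ∈ interior (piece 0) := by
  have s1 := s_lo
  have s2 := s_hi
  have h : (0 : ℂ) ∈ interior (pW 0).set := by
    have e : pW 0 = [⟨4, -2⟩, ⟨-2, 2⟩, ⟨2, 0⟩, ⟨2, 0⟩, ⟨-1, 2⟩, ⟨4, -1⟩, ⟨-2, 2⟩, ⟨4, 0⟩, ⟨2, 2⟩,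
      ⟨2, 2⟩, ⟨4, 0⟩, ⟨-2, 2⟩] := by decide +kernel
    rw [e]
    apply Box.mem_interior
    have hF : ∀ k, F k 0 = 0 := by
      intro k; rw [← Fl_apply, map_zero]
    rw [forall_12 (fun k => F k 0 < (Box.u _ k).val)]
    simp only [hF, Box.u, List.getD_cons_zero, List.getD_cons_succ, Q.val]
    push_cast
    refine ⟨⟨?_, ?_, ?_, ?_, ?_, ?_⟩, ⟨?_, ?_, ?_, ?_, ?_, ?_⟩⟩ <;> linarith
  exact interior_mono subset_union_left h

end Pool.Agent.helper56.Dod
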